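import Pool.Agent.P8H32.CT.Germ

/-!
The expansion of the Cauchy transform at infinity.
-/

set_option autoImplicit false

namespace Pool.Agent.P8H32.CT

open Polynomial Filter Topology Asymptotics MeasureTheory

/-- the Cauchy transform -/
noncomputable def cauchyT (Ω : Set ℂ) (z : ℂ) : ℂ := (1 / (Real.pi : ℂ)) * ∫ ζ in Ω, (z - ζ)⁻¹

lemma geom_id (t ζ : ℂ) (ht : t ≠ 0) (h : 1 - t * ζ ≠ 0) (M : ℕ) :
    (t⁻¹ - ζ)⁻¹ - ∑ k ∈ Finset.range M, ζ ^ k * t ^ (k + 1) =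
      t ^ (M + 1) * (ζ ^ M * (1 - t * ζ)⁻¹) := by
  have h1 : (t⁻¹ - ζ)⁻¹ = t * (1 - t * ζ)⁻¹ := by
    have h2 : t⁻¹ - ζ = t⁻¹ * (1 - t * ζ) := by field_simp
    rw [h2, mul_inv, inv_inv]
  have h2 : ∑ k ∈ Finset.range M, ζ ^ k * t ^ (k + 1) = t * ∑ k ∈ Finset.range M, (t * ζ) ^ k := by
    rw [Finset.mul_sum]
    refine Finset.sum_congr rfl fun k _ => ?_
    rw [mul_pow, pow_succ]
    ring
  have h3 := mul_neg_geom_sum (t * ζ) M
  have h4 : ∑ k ∈ Finset.range M, (t * ζ) ^ k = (1 - (t * ζ) ^ M) * (1 - t * ζ)⁻¹ := by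
    rw [← h3]
    field_simp
  rw [h1, h2, h4, mul_pow]
  ring

lemma cauchy_rel {Ω : Set ℂ} {R : ℝ} (hR : 0 < R) (hΩR : Ω ⊆ Metric.ball 0 R)
    (hm : MeasurableSet Ω) (lam : ℂ[X] →ₗ[ℂ] ℂ)
    (hlam : ∀ k : ℕ, lam (X ^ k) = (1 / (Real.pi : ℂ)) * ∫ ζ in Ω, ζ ^ k) :
    Rel (fun t => cauchyT Ω t⁻¹) (mom lam) := by
  have hvol : volume Ω < ⊤ := (measure_mono hΩR).trans_lt measure_ball_lt_top
  intro M
  refine ⟨∑ k ∈ Finset.range M, monomial (k + 1) (lam (X ^ k)), ?_, ?_⟩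
  · intro n hn
    rw [mom, PowerSeries.coeff_mk, finsetSum_coeff]
    simp only [coeff_monomial]
    rcases Nat.eq_zero_or_pos n with h | h
    · subst h
      simp
    · rw [if_neg (by omega), Finset.sum_eq_single (n - 1)]
      · rw [if_pos (by omega)]
      · intro k _ hk
        rw [if_neg (by omega)]
      · intro hk
        rw [Finset.mem_range] at hk
        omega
  · apply IsBigO.of_bound (‖(1 / (Real.pi : ℂ))‖ * ((2 * R ^ M * volume.real Ω) * (1 / (2 * R))))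
    have hnh : Metric.ball (0 : ℂ) (1 / (2 * R)) ∈ 𝓝[≠] (0 : ℂ) :=
      nhdsWithin_le_nhds (Metric.ball_mem_nhds 0 (by positivity))
    filter_upwards [hnh, self_mem_nhdsWithin] with t ht ht0
    have ht0' : t ≠ 0 := ht0
    rw [mem_ball_zero_iff] at ht
    have hbd : ∀ ζ ∈ Ω, ‖t * ζ‖ ≤ 1 / 2 := by
      intro ζ hζ
      have h1 := hΩR hζ
      rw [mem_ball_zero_iff] at h1
      rw [norm_mul]
      calc ‖t‖ * ‖ζ‖ ≤ 1 / (2 * R) * R := by
            apply mul_le_mul ht.le h1.le (norm_nonneg _) (by positivity)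
        _ = 1 / 2 := by field_simp
    have hinv : ∀ ζ ∈ Ω, 1 / 2 ≤ ‖1 - t * ζ‖ := by
      intro ζ hζ
      have h1 := norm_sub_norm_le (1 : ℂ) (t * ζ)
      rw [norm_one] at h1
      linarith [hbd ζ hζ]
    have hne : ∀ ζ ∈ Ω, 1 - t * ζ ≠ 0 := by
      intro ζ hζ h0
      have := hinv ζ hζ
      rw [h0, norm_zero] at this
      linarith
    -- continuity, hence integrability of the integrand
    have hint : IntegrableOn (fun ζ => t ^ (M + 1) * (ζ ^ M * (1 - t * ζ)⁻¹)) Ω := by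
      apply Measure.integrableOn_of_bounded hvol.ne
        (M := ‖t‖ ^ (M + 1) * (R ^ M * 2))
      · apply Measurable.aestronglyMeasurable
        fun_prop
      · filter_upwards [ae_restrict_mem hm] with ζ hζ
        have h1 := hΩR hζ
        rw [mem_ball_zero_iff] at h1
        rw [norm_mul, norm_mul, norm_inv, norm_pow, norm_pow]
        have h2 : ‖1 - t * ζ‖⁻¹ ≤ 2 := by
          rw [inv_le_comm₀ (by linarith [hinv ζ hζ]) (by norm_num)]
          linarith [hinv ζ hζ]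
        gcongr
    have hpow : ∀ k : ℕ, IntegrableOn (fun ζ : ℂ => ζ ^ k) Ω := by
      intro k
      exact ((continuous_pow k).continuousOn.integrableOn_compact
        (isCompact_closedBall (0 : ℂ) R)).mono_set (hΩR.trans Metric.ball_subset_closedBall)
    have hsum : IntegrableOn (fun ζ : ℂ => ∑ k ∈ Finset.range M, ζ ^ k * t ^ (k + 1)) Ω :=
      integrable_finsetSum _ fun k _ => (hpow k).mul_const _
    have e1 : ∫ ζ in Ω, (t⁻¹ - ζ)⁻¹ = (∫ ζ in Ω, t ^ (M + 1) * (ζ ^ M * (1 - t * ζ)⁻¹)) +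
        ∫ ζ in Ω, ∑ k ∈ Finset.range M, ζ ^ k * t ^ (k + 1) := by
      rw [← integral_add hint hsum]
      apply setIntegral_congr_fun hm
      intro ζ hζ
      have := geom_id t ζ ht0' (hne ζ hζ) M
      simp only
      rw [← this]
      ring
    have e2 : (∑ k ∈ Finset.range M, monomial (k + 1) (lam (X ^ k))).eval t =
        (1 / (Real.pi : ℂ)) * ∫ ζ in Ω, ∑ k ∈ Finset.range M, ζ ^ k * t ^ (k + 1) := by
      rw [integral_finsetSum _ fun k _ => (hpow k).mul_const _, eval_finsetSum, Finset.mul_sum]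
      refine Finset.sum_congr rfl fun k _ => ?_
      rw [eval_monomial, hlam, integral_mul_const]
      ring
    have e3 : cauchyT Ω t⁻¹ - (∑ k ∈ Finset.range M, monomial (k + 1) (lam (X ^ k))).eval t =
        (1 / (Real.pi : ℂ)) * ∫ ζ in Ω, t ^ (M + 1) * (ζ ^ M * (1 - t * ζ)⁻¹) := by
      rw [e2, cauchyT, e1]
      ring
    rw [e3, norm_mul]
    have e4 : ‖∫ ζ in Ω, t ^ (M + 1) * (ζ ^ M * (1 - t * ζ)⁻¹)‖ ≤
        (‖t‖ ^ (M + 1) * (R ^ M * 2)) * volume.real Ω := by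
      apply norm_setIntegral_le_of_norm_le_const hvol
      intro ζ hζ
      have h1 := hΩR hζ
      rw [mem_ball_zero_iff] at h1
      rw [norm_mul, norm_mul, norm_inv, norm_pow, norm_pow]
      have h2 : ‖1 - t * ζ‖⁻¹ ≤ 2 := by
        rw [inv_le_comm₀ (by linarith [hinv ζ hζ]) (by norm_num)]
        linarith [hinv ζ hζ]
      gcongr
    have e5 : ‖t‖ ^ (M + 1) ≤ 1 / (2 * R) * ‖t‖ ^ M := by
      rw [pow_succ, mul_comm]
      exact mul_le_mul_of_nonneg_right ht.le (by positivity)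
    calc ‖(1 / (Real.pi : ℂ))‖ * ‖∫ ζ in Ω, t ^ (M + 1) * (ζ ^ M * (1 - t * ζ)⁻¹)‖
        ≤ ‖(1 / (Real.pi : ℂ))‖ * ((‖t‖ ^ (M + 1) * (R ^ M * 2)) * volume.real Ω) := by
          gcongr
      _ ≤ ‖(1 / (Real.pi : ℂ))‖ * (((1 / (2 * R) * ‖t‖ ^ M) * (R ^ M * 2)) * volume.real Ω) := by
          gcongr
      _ = ‖(1 / (Real.pi : ℂ))‖ * (2 * R ^ M * volume.real Ω * (1 / (2 * R))) * ‖t ^ M‖ := by
          rw [norm_pow]
          ring

end Pool.Agent.P8H32.CT
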