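import Pool.Agent.P8H32.CT.Inf
import Pool.Agent.H928R2.TriTrace

/-!
The algebraic core: the series is transcendental.
-/

set_option autoImplicit false

namespace Pool.Agent.P8H32.CT

open Polynomial IntermediateField

/-- the field of rational functions of `Z` -/
noncomputable abbrev kZ : IntermediateField ℂ LS := ℂ⟮ZZ⟯

lemma aeval_ZZ (f : ℂ[X]) : aeval ZZ f = ev f := rfl

lemma ev_mem (f : ℂ[X]) : ev f ∈ kZ := by
  rw [← aeval_ZZ]
  exact (IntermediateField.mem_adjoin_simple_iff ℂ _).2 ⟨f, 1, by simp⟩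

lemma mem_kZ {x : LS} : x ∈ kZ ↔ ∃ r s : ℂ[X], x = ev r / ev s :=
  IntermediateField.mem_adjoin_simple_iff ℂ x

lemma DZ_mem {x : LS} (hx : x ∈ kZ) : DZ x ∈ kZ := by
  obtain ⟨r, s, rfl⟩ := mem_kZ.1 hx
  rw [Derivation.leibniz_div, DZ_ev, DZ_ev]
  simp only [smul_eq_mul]
  exact mul_mem (pow_mem (inv_mem (ev_mem s)) 2)
    (sub_mem (mul_mem (ev_mem _) (ev_mem _)) (mul_mem (ev_mem _) (ev_mem _)))

/-- the derivation of the field of rational functions -/
noncomputable def Dk : Derivation ℤ kZ kZ :=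
  Derivation.mk' (AddMonoidHom.toIntLinearMap
    { toFun := fun x => (⟨DZ x, DZ_mem x.2⟩ : kZ)
      map_zero' := Subtype.ext (by simp)
      map_add' := fun x y => Subtype.ext (by simp) }) (by
    intro x y
    apply Subtype.ext
    change DZ ((x : LS) * y) = x * DZ y + y * DZ x
    rw [Derivation.leibniz, smul_eq_mul, smul_eq_mul])

lemma Dk_coe (x : kZ) : ((Dk x : kZ) : LS) = DZ x := rfl

noncomputable instance : Differential LS := ⟨DZ⟩
noncomputable instance : Differential kZ := ⟨Dk⟩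
instance : DifferentialAlgebra kZ LS := ⟨fun _ => rfl⟩

instance : CharZero LS := charZero_of_injective_algebraMap (algebraMap ℂ LS).injective

lemma Dk_eq (x : kZ) : Differential.deriv x = Dk x := rfl
lemma DZ_eq (x : LS) : Differential.deriv x = DZ x := rfl

/-- The averaging operator of a finite extension of the field of rational functions inside the
Laurent series: linear, the identity on rational functions, commuting with the derivation. -/
lemma exists_average {x : LS} (hx : IsAlgebraic kZ x) :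
    ∃ (B : IntermediateField kZ LS) (T : B →ₗ[kZ] kZ), x ∈ B ∧ (∀ y ∈ B, DZ y ∈ B) ∧
      (∀ c : kZ, T (algebraMap kZ B c) = c) ∧
      ∀ (y z : B), (z : LS) = DZ y → T z = Dk (T y) := by
  let B : IntermediateField kZ LS := kZ⟮x⟯
  have hfin : FiniteDimensional kZ B := IntermediateField.adjoin.finiteDimensional hx.isIntegral
  have hDB : ∀ y : B, ((Differential.deriv y : B) : LS) = DZ y := by
    intro y
    have h := DifferentialAlgebra.deriv_algebraMap (A := B) (B := LS) y
    exact h.symm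
  have hDk : ∀ c : kZ, Differential.deriv (algebraMap kZ B c) = algebraMap kZ B (Dk c) := fun c =>
    DifferentialAlgebra.deriv_algebraMap (A := kZ) (B := B) c
  have hn : ((Module.finrank kZ B : ℕ) : kZ) ≠ 0 := by
    exact_mod_cast (Module.finrank_pos (R := kZ) (M := B)).ne'
  refine ⟨B, ((Module.finrank kZ B : ℕ) : kZ)⁻¹ • Algebra.trace kZ B, mem_adjoin_simple_self kZ x,
    ?_, ?_, ?_⟩
  · intro y hy
    rw [← hDB ⟨y, hy⟩]
    exact (Differential.deriv (⟨y, hy⟩ : B)).2
  · intro c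
    rw [LinearMap.smul_apply, Algebra.trace_algebraMap, smul_eq_mul, nsmul_eq_mul,
      inv_mul_cancel_left₀ hn]
  · intro y z hz
    have hz' : z = Differential.deriv y := Subtype.ext (by rw [hz, hDB])
    rw [hz', LinearMap.smul_apply, LinearMap.smul_apply,
      H928R2.Tri.trace_comm (Differential.deriv (R := B)) Dk hDk y, smul_eq_mul, smul_eq_mul,
      Derivation.leibniz]
    have h0 : Dk ((Module.finrank kZ B : ℕ) : kZ)⁻¹ = 0 := by
      rw [Derivation.leibniz_inv, Derivation.map_natCast, smul_zero]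
    rw [h0, smul_zero, add_zero, smul_eq_mul]

lemma wronskian_ne {p q : ℂ[X]} (hp : p.natDegree ≤ 2) (h6 : (del p q).natDegree = 6)
    (hcop : IsCoprime (del p q) (derivative (del p q))) :
    3 * q * derivative p - 2 * p * derivative q ≠ 0 := by
  intro h
  have h1 : derivative (del p q) * p = 3 * derivative p * del p q := by
    rw [der_del, del]
    linear_combination (-27 * q) * h
  have h2 : del p q ∣ p := by
    have h3 : del p q ∣ derivative (del p q) * p := by
      rw [h1]; exact dvd_mul_left _ _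
    exact hcop.dvd_of_dvd_mul_left h3
  by_cases hp0 : p = 0
  · have h4 : IsUnit q := by
      have h5 : q ∣ del p q := by rw [hp0, del]; exact ⟨27 * q, by ring⟩
      have h6' : q ∣ derivative (del p q) := by
        rw [der_del, hp0]; exact ⟨54 * derivative q, by ring⟩
      exact hcop.isUnit_of_dvd' h5 h6'
    obtain ⟨c, hc⟩ := Polynomial.isUnit_iff.1 h4
    rw [hp0, del, ← hc.2] at h6
    have : ((4 : ℂ[X]) * 0 ^ 3 + 27 * C c ^ 2) = C (27 * c ^ 2) := by
      rw [C_mul, C_pow, C_ofNat]; ring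
    rw [this, natDegree_C] at h6
    omega
  · have := natDegree_le_of_dvd h2 hp0
    omega

/-- **The algebraic core.** -/
theorem core {p q : ℂ[X]} (hp : p.natDegree ≤ 2) (hq : q.natDegree ≤ 3)
    (h6 : (del p q).natDegree = 6) (hcop : IsCoprime (del p q) (derivative (del p q)))
    {Y0 Y1 C1 : LS} {r1 r2 r3 r4 : ℂ[X]}
    (R1 : ev (del p q) * DZ Y0 + ev (n00 p q) * Y0 + ev (n01 p q) * Y1 = ev r1)
    (R2 : ev (del p q) * DZ Y1 + ev (n10 p q) * Y0 + ev (n11 p q) * Y1 = ev r2)
    (R3 : C1 + ev (3 * q) * Y0 + ev (2 * p) * Y1 = ev r3)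
    (R4 : DZ C1 + ev (derivative q) * Y0 + ev (derivative p) * Y1 = ev r4)
    (hY0 : ∀ n ≤ 0, cf Y0 n = 0) (hY1 : cf Y0 1 ≠ 0) : ¬ IsAlgebraic kZ C1 := by
  intro halg
  obtain ⟨B, T, hC, hD, hT1, hTD⟩ := exists_average halg
  have hev : ∀ f, ev f ∈ B := fun f => by
    have := B.algebraMap_mem ⟨ev f, ev_mem f⟩
    exact this
  set W : ℂ[X] := 3 * q * derivative p - 2 * p * derivative q with hW
  have hWne : ev W ≠ 0 := by
    rw [Ne, map_eq_zero_iff ev ev_injective]
    exact wronskian_ne hp h6 hcop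
  have hY0B : Y0 ∈ B := by
    have : Y0 = (ev (derivative p) * (ev r3 - C1) - ev (2 * p) * (ev r4 - DZ C1)) / ev W := by
      rw [eq_div_iff hWne, hW, map_sub, map_mul ev (3 * q), map_mul ev (2 * p), ← R3, ← R4]
      ring
    rw [this]
    exact div_mem (sub_mem (mul_mem (hev _) (sub_mem (hev _) hC))
      (mul_mem (hev _) (sub_mem (hev _) (hD _ hC)))) (hev _)
  have hY1B : Y1 ∈ B := by
    have : Y1 = (ev (3 * q) * (ev r4 - DZ C1) - ev (derivative q) * (ev r3 - C1)) / ev W := by
      rw [eq_div_iff hWne, hW, map_sub, map_mul ev (3 * q), map_mul ev (2 * p), ← R3, ← R4]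
      ring
    rw [this]
    exact div_mem (sub_mem (mul_mem (hev _) (sub_mem (hev _) (hD _ hC)))
      (mul_mem (hev _) (sub_mem (hev _) hC))) (hev _)
  -- apply the average
  let y0 : B := ⟨Y0, hY0B⟩
  let y1 : B := ⟨Y1, hY1B⟩
  let dy0 : B := ⟨DZ Y0, hD _ hY0B⟩
  let dy1 : B := ⟨DZ Y1, hD _ hY1B⟩
  let e : ℂ[X] → kZ := fun f => ⟨ev f, ev_mem f⟩
  have he : ∀ f, ((e f : kZ) : LS) = ev f := fun _ => rfl
  have avg : ∀ (a b c r : ℂ[X]) (u v w : B), ev a * (u : LS) + ev b * v + ev c * w = ev r →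
      ev a * ((T u : kZ) : LS) + ev b * ((T v : kZ) : LS) + ev c * ((T w : kZ) : LS) = ev r := by
    intro a b c r u v w h
    have h1 : (e a) • u + (e b) • v + (e c) • w = algebraMap kZ B (e r) := by
      apply Subtype.ext
      exact h
    have h2 := congrArg T h1
    rw [map_add, map_add, map_smul, map_smul, map_smul, hT1] at h2
    have h3 := congrArg (fun x : kZ => (x : LS)) h2
    exact h3
  have A1 := avg _ _ _ _ dy0 y0 y1 R1
  have A2 := avg _ _ _ _ dy1 y0 y1 R2
  rw [hTD y0 dy0 rfl, Dk_coe] at A1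
  rw [hTD y1 dy1 rfl, Dk_coe] at A2
  obtain ⟨u0, v0, huv0⟩ := mem_kZ.1 (T y0).2
  obtain ⟨u1, v1, huv1⟩ := mem_kZ.1 (T y1).2
  -- common denominators
  obtain ⟨m0, m1, d, hd, hm0, hm1⟩ : ∃ m0 m1 d : ℂ[X], d ≠ 0 ∧
      ((T y0 : kZ) : LS) = ev m0 / ev d ∧ ((T y1 : kZ) : LS) = ev m1 / ev d := by
    have key : ∀ (x : LS) (u v : ℂ[X]), x = ev u / ev v → ∃ u' v' : ℂ[X], v' ≠ 0 ∧
        x = ev u' / ev v' := by
      intro x u v h
      by_cases hv : v = 0
      · refine ⟨0, 1, one_ne_zero, ?_⟩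
        rw [h, hv, map_zero, div_zero, zero_div]
      · exact ⟨u, v, hv, h⟩
    obtain ⟨u0', v0', hv0, h0⟩ := key _ _ _ huv0
    obtain ⟨u1', v1', hv1, h1⟩ := key _ _ _ huv1
    have e0 : ev v0' ≠ 0 := by rwa [Ne, map_eq_zero_iff ev ev_injective]
    have e1 : ev v1' ≠ 0 := by rwa [Ne, map_eq_zero_iff ev ev_injective]
    refine ⟨u0' * v1', u1' * v0', v0' * v1', mul_ne_zero hv0 hv1, ?_, ?_⟩
    · rw [h0, map_mul, map_mul, mul_div_mul_right _ _ e1]
    · rw [h1, map_mul, map_mul, mul_comm (ev v0'), mul_div_mul_right _ _ e0]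
  have hdne : ev d ≠ 0 := by rwa [Ne, map_eq_zero_iff ev ev_injective]
  have hder : ∀ m : ℂ[X], DZ (ev m / ev d) * ev d ^ 2 =
      ev (derivative m) * ev d - ev m * ev (derivative d) := by
    intro m
    rw [Derivation.leibniz_div, DZ_ev, DZ_ev]
    simp only [smul_eq_mul]
    field_simp
  have topoly : ∀ (m a b r : ℂ[X]),
      ev (del p q) * DZ (ev m / ev d) + ev a * (ev m0 / ev d) + ev b * (ev m1 / ev d) = ev r →
      del p q * (derivative m * d - m * derivative d) + (a * m0 + b * m1) * d = r * d ^ 2 := by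
    intro m a b r h
    apply ev_injective
    simp only [map_add, map_mul, map_sub, map_pow]
    rw [← h, ← hder]
    field_simp
    ring
  have P1 := topoly m0 _ _ _ (by rw [← hm0, ← hm1]; exact A1)
  have P2 := topoly m1 _ _ _ (by rw [← hm0, ← hm1]; exact A2)
  obtain ⟨a0, a1, ha0, ha1⟩ := poly_solution hcop _ m0 m1 d rfl hd P1 P2
  have hA0 : ((T y0 : kZ) : LS) = ev a0 := by
    rw [hm0, ha0, map_mul, mul_div_cancel_right₀ _ hdne]
  have hA1 : ((T y1 : kZ) : LS) = ev a1 := by
    rw [hm1, ha1, map_mul, mul_div_cancel_right₀ _ hdne]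
  rw [hA0, hA1] at A1 A2
  -- the homogeneous solution
  have hord := order_at_infinity hp hq h6 (B0 := Y0 - ev a0) (B1 := Y1 - ev a1)
    (by rw [map_sub]; linear_combination R1 - A1) (by rw [map_sub]; linear_combination R2 - A2)
  have ha0 : a0 = 0 := by
    ext n
    have h := hord (-(n : ℤ)) (by omega)
    rw [cf_sub, hY0 _ (by omega), ev_cf_neg] at h
    rw [Polynomial.coeff_zero]
    linear_combination -h
  have h := hord 1 (by omega)
  rw [cf_sub, ha0, map_zero, cf_zero, sub_zero] at h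
  exact hY1 h

end Pool.Agent.P8H32.CT
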