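import Mathlib

/-!
The divergence theorem for functions which vanish on the boundary of a bounded open set of the plane.
-/

set_option autoImplicit false

namespace Pool.Agent.P8H32.CT

open MeasureTheory Set

lemma one_dim (G g : ℝ → ℂ) (hG : Continuous G) (s : Set ℝ) (hs : s.Countable)
    (hd : ∀ x, x ∉ s → HasDerivAt G (g x) x) (R : ℝ) (hR : 0 < R) (hG0 : ∀ x, R ≤ |x| → G x = 0)
    (hg0 : ∀ x, R ≤ |x| → g x = 0) : ∫ x, g x = 0 := by
  by_cases hi : Integrable g
  · have h1 : ∫ x, g x = ∫ x in (-R)..R, g x := by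
      rw [intervalIntegral.integral_of_le (by linarith)]
      symm
      apply setIntegral_eq_integral_of_forall_compl_eq_zero
      intro x hx
      apply hg0
      rw [mem_Ioc, not_and_or] at hx
      rcases hx with hx | hx
      · exact le_abs.2 (Or.inr (by linarith))
      · exact le_abs.2 (Or.inl (by linarith))
    rw [h1, integral_eq_of_hasDerivAt_off_countable_of_le G g (by linarith) hs hG.continuousOn
      (fun x hx => hd x hx.2) hi.intervalIntegrable, hG0 R (le_abs_self R),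
      hG0 (-R) (by rw [abs_neg]; exact le_abs_self R), sub_zero]
  · exact integral_undef hi

lemma hasDerivAt_indicator {Ω : Set ℂ} (hΩo : IsOpen Ω) {c : ℝ → ℂ} (hc : Continuous c)
    {f fx : ℂ → ℂ} (x : ℝ)
    (hd : c x ∈ Ω → HasDerivAt (fun t => f (c t)) (fx (c x)) x) (hx : c x ∉ frontier Ω) :
    HasDerivAt (fun t => Ω.indicator f (c t)) (Ω.indicator fx (c x)) x := by
  by_cases h : c x ∈ Ω
  · rw [indicator_of_mem h]
    apply (hd h).congr_of_eventuallyEq
    filter_upwards [hc.continuousAt.preimage_mem_nhds (hΩo.mem_nhds h)] with t ht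
    exact indicator_of_mem (s := Ω) ht f
  · rw [indicator_of_notMem h]
    have h2 : c x ∈ (closure Ω)ᶜ := by
      intro h3
      apply hx
      rw [hΩo.frontier_eq]
      exact ⟨h3, h⟩
    apply (hasDerivAt_const x (0 : ℂ)).congr_of_eventuallyEq
    filter_upwards [hc.continuousAt.preimage_mem_nhds (isClosed_closure.isOpen_compl.mem_nhds h2)]
      with t ht
    exact indicator_of_notMem (s := Ω) (fun h4 => ht (subset_closure h4)) f

variable {Ω : Set ℂ} (hΩo : IsOpen Ω) {R : ℝ} (hR : 0 < R) (hΩR : Ω ⊆ Metric.ball 0 R)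
  {f fx : ℂ → ℂ} (hf : ContinuousOn f (closure Ω)) (hf0 : ∀ ζ ∈ frontier Ω, f ζ = 0)

include hΩo hR hΩR hf hf0

lemma div_x
    (hd : ∀ x y : ℝ, (⟨x, y⟩ : ℂ) ∈ Ω → HasDerivAt (fun t : ℝ => f ⟨t, y⟩) (fx ⟨x, y⟩) x)
    (hs : ∀ y : ℝ, {x : ℝ | (⟨x, y⟩ : ℂ) ∈ frontier Ω}.Countable) (hi : IntegrableOn fx Ω) :
    ∫ ζ in Ω, fx ζ = 0 := by
  have hF : Continuous (Ω.indicator f) := continuous_indicator hf0 hf
  rw [← integral_indicator hΩo.measurableSet]
  have hi' : Integrable (Ω.indicator fx) := hi.integrable_indicator hΩo.measurableSet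
  have hmp := Complex.volume_preserving_equiv_real_prod.symm
  rw [← hmp.integral_comp' (Ω.indicator fx)]
  have hi2 : Integrable (fun p : ℝ × ℝ => Ω.indicator fx (Complex.measurableEquivRealProd.symm p)) :=
    (hmp.integrable_comp_emb (Complex.measurableEquivRealProd.symm.measurableEmbedding)).2 hi'
  have h3 := integral_prod_symm _ hi2
  rw [← Measure.volume_eq_prod] at h3
  rw [h3]
  have hc : ∀ y : ℝ, Continuous (fun t : ℝ => (⟨t, y⟩ : ℂ)) := by
    intro y
    have : (fun t : ℝ => (⟨t, y⟩ : ℂ)) = fun t : ℝ => (t : ℂ) + (y : ℂ) * Complex.I := by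
      funext t; apply Complex.ext <;> simp
    rw [this]; fun_prop
  have hnot : ∀ x y : ℝ, R ≤ |x| → (⟨x, y⟩ : ℂ) ∉ Ω := by
    intro x y hx hm
    have h1 := hΩR hm
    rw [mem_ball_zero_iff] at h1
    have h2 := Complex.abs_re_le_norm (⟨x, y⟩ : ℂ)
    simp only at h2
    linarith
  rw [integral_eq_zero_of_ae]
  filter_upwards with y
  simp only [Complex.measurableEquivRealProd_symm_apply, Pi.zero_apply]
  exact one_dim (fun t => Ω.indicator f ⟨t, y⟩) (fun t => Ω.indicator fx ⟨t, y⟩)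
    (hF.comp (hc y)) _ (hs y) (fun x hx => hasDerivAt_indicator hΩo (hc y) x (hd x y) hx) R hR
    (fun x hx => indicator_of_notMem (hnot x y hx) _) (fun x hx => indicator_of_notMem (hnot x y hx) _)

lemma div_y
    (hd : ∀ x y : ℝ, (⟨x, y⟩ : ℂ) ∈ Ω → HasDerivAt (fun t : ℝ => f ⟨x, t⟩) (fx ⟨x, y⟩) y)
    (hs : ∀ x : ℝ, {y : ℝ | (⟨x, y⟩ : ℂ) ∈ frontier Ω}.Countable) (hi : IntegrableOn fx Ω) :
    ∫ ζ in Ω, fx ζ = 0 := by
  have hF : Continuous (Ω.indicator f) := continuous_indicator hf0 hf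
  rw [← integral_indicator hΩo.measurableSet]
  have hi' : Integrable (Ω.indicator fx) := hi.integrable_indicator hΩo.measurableSet
  have hmp := Complex.volume_preserving_equiv_real_prod.symm
  rw [← hmp.integral_comp' (Ω.indicator fx)]
  have hi2 : Integrable (fun p : ℝ × ℝ => Ω.indicator fx (Complex.measurableEquivRealProd.symm p)) :=
    (hmp.integrable_comp_emb (Complex.measurableEquivRealProd.symm.measurableEmbedding)).2 hi'
  have h3 := integral_prod _ hi2
  rw [← Measure.volume_eq_prod] at h3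
  rw [h3]
  have hc : ∀ x : ℝ, Continuous (fun t : ℝ => (⟨x, t⟩ : ℂ)) := by
    intro x
    have : (fun t : ℝ => (⟨x, t⟩ : ℂ)) = fun t : ℝ => (x : ℂ) + (t : ℂ) * Complex.I := by
      funext t; apply Complex.ext <;> simp
    rw [this]; fun_prop
  have hnot : ∀ x y : ℝ, R ≤ |y| → (⟨x, y⟩ : ℂ) ∉ Ω := by
    intro x y hx hm
    have h1 := hΩR hm
    rw [mem_ball_zero_iff] at h1
    have h2 := Complex.abs_im_le_norm (⟨x, y⟩ : ℂ)
    simp only at h2
    linarith
  rw [integral_eq_zero_of_ae]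
  filter_upwards with x
  simp only [Complex.measurableEquivRealProd_symm_apply, Pi.zero_apply]
  exact one_dim (fun t => Ω.indicator f ⟨x, t⟩) (fun t => Ω.indicator fx ⟨x, t⟩)
    (hF.comp (hc x)) _ (hs x) (fun y hy => hasDerivAt_indicator hΩo (hc x) y (hd x y) hy) R hR
    (fun y hy => indicator_of_notMem (hnot x y hy) _) (fun y hy => indicator_of_notMem (hnot x y hy) _)

end Pool.Agent.P8H32.CT
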