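import Pool.Agent.P8H32.CT.Line
import Pool.Agent.P8H32.CT.Div

/-!
The domain bounded by an oval.
-/

set_option autoImplicit false

namespace Pool.Agent.P8H32.CT

open Polynomial ComplexConjugate

/-- The situation: `Ω` is a bounded domain whose boundary is contained in the real curve
`κ (s ^ 3 + p s + q) = 0`. -/
structure Dom (p q : ℂ[X]) (σ0 σ1 κ : ℂ) (Ω : Set ℂ) (R : ℝ) : Prop where
  hp : p.natDegree ≤ 2
  hq : q.natDegree ≤ 3
  h6 : (del p q).natDegree = 6
  hcop : IsCoprime (del p q) (derivative (del p q))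
  hκ : κ ≠ 0
  hreal : ∀ ζ, (κ * EE σ0 σ1 (PP p q) ζ).im = 0
  hopen : IsOpen Ω
  hR : 0 < R
  hΩR : Ω ⊆ Metric.ball 0 R
  hconn : IsPreconnected Ω
  hne : Ω.Nonempty
  hfr : ∀ ζ ∈ frontier Ω, EE σ0 σ1 (PP p q) ζ = 0

lemma hasDerivAt_eval (F : RR) (u v : ℝ → ℂ) (u' v' : ℂ) (x : ℝ) (hu : HasDerivAt u u' x)
    (hv : HasDerivAt v v' x) : HasDerivAt (fun t => MvPolynomial.eval ![u t, v t] F)
      (u' * MvPolynomial.eval ![u x, v x] (MvPolynomial.pderiv 0 F) +
        v' * MvPolynomial.eval ![u x, v x] (MvPolynomial.pderiv 1 F)) x := by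
  induction F using MvPolynomial.induction_on with
  | C a => simpa using hasDerivAt_const x a
  | add F G hF hG =>
    have h0 := hF.add hG
    have e : (fun t => MvPolynomial.eval ![u t, v t] (F + G)) =
        (fun t => MvPolynomial.eval ![u t, v t] F) + fun t => MvPolynomial.eval ![u t, v t] G := by
      funext t
      simp
    rw [e]
    refine h0.congr_deriv ?_
    simp only [map_add]
    ring
  | mul_X F i hF =>
    fin_cases i
    · have h0 := hF.mul hu
      have e : (fun t => MvPolynomial.eval ![u t, v t]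
          (F * MvPolynomial.X ((fun i => i) (⟨0, Nat.zero_lt_succ 1⟩ : Fin 2)))) =
          (fun t => MvPolynomial.eval ![u t, v t] F) * u := by
        funext t
        simp
      change HasDerivAt (fun t => MvPolynomial.eval ![u t, v t]
          (F * MvPolynomial.X ((fun i => i) (⟨0, Nat.zero_lt_succ 1⟩ : Fin 2)))) _ x
      rw [e]
      refine h0.congr_deriv ?_
      change _ = u' * MvPolynomial.eval ![u x, v x] (MvPolynomial.pderiv 0
          (F * MvPolynomial.X 0)) + v' * MvPolynomial.eval ![u x, v x]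
          (MvPolynomial.pderiv 1 (F * MvPolynomial.X 0))
      rw [Derivation.leibniz, Derivation.leibniz, MvPolynomial.pderiv_X_self,
        MvPolynomial.pderiv_X_of_ne (by decide)]
      simp only [smul_eq_mul, map_add, map_mul, MvPolynomial.eval_X, map_one, map_zero,
        Matrix.cons_val_zero]
      ring
    · have h0 := hF.mul hv
      have e : (fun t => MvPolynomial.eval ![u t, v t]
          (F * MvPolynomial.X (1 : Fin 2))) =
          (fun t => MvPolynomial.eval ![u t, v t] F) * v := by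
        funext t
        simp
      change HasDerivAt (fun t => MvPolynomial.eval ![u t, v t]
          (F * MvPolynomial.X (1 : Fin 2))) _ x
      rw [e]
      refine h0.congr_deriv ?_
      change _ = u' * MvPolynomial.eval ![u x, v x] (MvPolynomial.pderiv 0
          (F * MvPolynomial.X 1)) + v' * MvPolynomial.eval ![u x, v x]
          (MvPolynomial.pderiv 1 (F * MvPolynomial.X 1))
      rw [Derivation.leibniz, Derivation.leibniz, MvPolynomial.pderiv_X_self,
        MvPolynomial.pderiv_X_of_ne (by decide)]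
      simp only [smul_eq_mul, map_add, map_mul, MvPolynomial.eval_X, map_one, map_zero,
        Matrix.cons_val_one, Matrix.cons_val_fin_one]
      ring

variable {p q : ℂ[X]} {σ0 σ1 κ : ℂ} {Ω : Set ℂ} {R : ℝ}

/-- the derivative in the direction of the real axis -/
noncomputable def Ex (σ0 σ1 : ℂ) (F : RR) (ζ : ℂ) : ℂ :=
  EE σ0 σ1 (MvPolynomial.pderiv 0 F) ζ + (1 + σ1) * EE σ0 σ1 (MvPolynomial.pderiv 1 F) ζ

/-- the derivative in the direction of the imaginary axis -/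
noncomputable def Ey (σ0 σ1 : ℂ) (F : RR) (ζ : ℂ) : ℂ :=
  Complex.I * EE σ0 σ1 (MvPolynomial.pderiv 0 F) ζ +
    (-Complex.I + Complex.I * σ1) * EE σ0 σ1 (MvPolynomial.pderiv 1 F) ζ

lemma mk_x (x y : ℝ) : (⟨x, y⟩ : ℂ) = (x : ℂ) + y * Complex.I := by
  apply Complex.ext <;> simp

/-- derivative along a line -/
lemma hasDerivAt_dir (F : RR) (ζ v : ℂ) (t : ℝ) :
    HasDerivAt (fun t : ℝ => EE σ0 σ1 F (ζ + t * v))
      (v.re * Ex σ0 σ1 F (ζ + t * v) + v.im * Ey σ0 σ1 F (ζ + t * v)) t := by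
  have h0 : HasDerivAt (fun t : ℝ => (t : ℂ)) 1 t := Complex.ofRealCLM.hasDerivAt
  have h1 : HasDerivAt (fun t : ℝ => ζ + t * v) v t := by
    simpa using (h0.mul_const v).const_add ζ
  have h2 : HasDerivAt (fun t : ℝ => sfun σ0 σ1 (ζ + t * v)) (conj v + σ1 * v) t := by
    have e : (fun t : ℝ => sfun σ0 σ1 (ζ + t * v)) =
        fun t : ℝ => (conj ζ + (t : ℂ) * conj v) + (σ0 + σ1 * (ζ + t * v)) := by
      funext t
      simp [sfun]
    rw [e]
    have h3 : HasDerivAt (fun t : ℝ => conj ζ + (t : ℂ) * conj v) (conj v) t := by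
      simpa using (h0.mul_const (conj v)).const_add (conj ζ)
    exact h3.add ((h1.const_mul σ1).const_add σ0)
  have h4 := hasDerivAt_eval F _ _ _ _ t h1 h2
  unfold EE
  convert h4 using 1
  unfold Ex Ey EE
  have e1 : (v : ℂ) = v.re + v.im * Complex.I := (Complex.re_add_im v).symm
  have e2 : conj v = v.re - v.im * Complex.I := by
    apply Complex.ext <;> simp
  rw [e2]
  generalize MvPolynomial.eval ![ζ + t * v, sfun σ0 σ1 (ζ + t * v)] (MvPolynomial.pderiv 0 F) = A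
  generalize MvPolynomial.eval ![ζ + t * v, sfun σ0 σ1 (ζ + t * v)] (MvPolynomial.pderiv 1 F) = B
  conv_rhs => rw [e1]
  simp only [Complex.add_re, Complex.ofReal_re, Complex.mul_re, Complex.I_re, mul_zero,
    Complex.ofReal_im, Complex.I_im, mul_one, sub_self, add_zero, Complex.add_im, Complex.mul_im,
    zero_add]
  ring

lemma hasDerivAt_x (F : RR) (x y : ℝ) :
    HasDerivAt (fun t : ℝ => EE σ0 σ1 F ⟨t, y⟩) (Ex σ0 σ1 F ⟨x, y⟩) x := by
  have h := hasDerivAt_dir (σ0 := σ0) (σ1 := σ1) F (y * Complex.I) 1 x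
  have e : ∀ t : ℝ, (y * Complex.I + t * 1 : ℂ) = ⟨t, y⟩ := fun t => by rw [mk_x]; ring
  simp only [e] at h
  simpa using h

lemma hasDerivAt_y (F : RR) (x y : ℝ) :
    HasDerivAt (fun t : ℝ => EE σ0 σ1 F ⟨x, t⟩) (Ey σ0 σ1 F ⟨x, y⟩) y := by
  have h := hasDerivAt_dir (σ0 := σ0) (σ1 := σ1) F x Complex.I y
  have e : ∀ t : ℝ, (x + t * Complex.I : ℂ) = ⟨x, t⟩ := fun t => by rw [mk_x]
  simp only [e] at h
  simpa using h

lemma continuous_EE (F : RR) : Continuous (EE σ0 σ1 F) := by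
  unfold EE
  have h : Continuous (fun ζ : ℂ => ![ζ, sfun σ0 σ1 ζ]) := by
    apply continuous_pi
    intro i
    fin_cases i
    · exact continuous_id
    · change Continuous (fun ζ : ℂ => sfun σ0 σ1 ζ)
      unfold sfun
      fun_prop
  exact (MvPolynomial.continuous_eval F).comp h

lemma continuous_Ex (F : RR) : Continuous (Ex σ0 σ1 F) := by
  unfold Ex
  exact (continuous_EE _).add (continuous_const.mul (continuous_EE _))

lemma continuous_Ey (F : RR) : Continuous (Ey σ0 σ1 F) := by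
  unfold Ey
  exact (continuous_const.mul (continuous_EE _)).add (continuous_const.mul (continuous_EE _))

lemma EE_mul (F G : RR) (ζ : ℂ) : EE σ0 σ1 (F * G) ζ = EE σ0 σ1 F ζ * EE σ0 σ1 G ζ := by
  simp [EE]

lemma EE_add (F G : RR) (ζ : ℂ) : EE σ0 σ1 (F + G) ζ = EE σ0 σ1 F ζ + EE σ0 σ1 G ζ := by
  simp [EE]

/-- The derivative of a real-valued function is real. -/
lemma im_deriv {f : ℝ → ℂ} {f' : ℂ} {x : ℝ} (h : HasDerivAt f f' x) (hr : ∀ t, (f t).im = 0) :
    f'.im = 0 := by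
  have h1 : HasDerivAt (fun t => (f t).im) f'.im x :=
    (Complex.imCLM.hasFDerivAt.comp_hasDerivAt x h)
  have h2 : HasDerivAt (fun t => (f t).im) 0 x := by
    simp only [hr]
    exact hasDerivAt_const x 0
  exact h1.unique h2

lemma lineP_deg (hp : p.natDegree ≤ 2) (hq : q.natDegree ≤ 3) (ζ v : ℂ) :
    (lineP σ0 σ1 (PP p q) ζ v).natDegree ≤ 3 := by
  set l0 : ℂ[X] := C ζ + C v * X with hl0
  set l1 : ℂ[X] := C (sfun σ0 σ1 ζ) + C (conj v + σ1 * v) * X with hl1
  have d0 : l0.natDegree ≤ 1 := by rw [hl0]; compute_degree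
  have d1 : l1.natDegree ≤ 1 := by rw [hl1]; compute_degree
  have h4 : ∀ f : ℂ[X], (MvPolynomial.aeval ![l0, l1] (toR f)) = f.comp l0 := by
    intro f
    rw [← Polynomial.aeval_algHom_apply, MvPolynomial.aeval_X, Polynomial.comp,
      Polynomial.aeval_def]
    rfl
  have h5 : lineP σ0 σ1 (PP p q) ζ v = l1 ^ 3 + p.comp l0 * l1 + q.comp l0 := by
    rw [lineP, PP, ← hl0, ← hl1, map_add, map_add, map_mul, map_pow, MvPolynomial.aeval_X, h4, h4]
    simp
  rw [h5]
  have e1 : (l1 ^ 3).natDegree ≤ 3 := natDegree_pow_le.trans (by omega)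
  have e2 : (p.comp l0 * l1).natDegree ≤ 3 := by
    refine natDegree_mul_le.trans ?_
    have : (p.comp l0).natDegree ≤ 2 := by
      refine natDegree_comp_le.trans ?_
      calc p.natDegree * l0.natDegree ≤ 2 * 1 := Nat.mul_le_mul hp d0
        _ = 2 := rfl
    omega
  have e3 : (q.comp l0).natDegree ≤ 3 := by
    refine natDegree_comp_le.trans ?_
    calc q.natDegree * l0.natDegree ≤ 3 * 1 := Nat.mul_le_mul hq d0
      _ = 3 := rfl
  exact natDegree_add_le_of_degree_le (natDegree_add_le_of_degree_le e1 e2) e3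

namespace Dom

variable (D : Dom p q σ0 σ1 κ Ω R)
include D

lemma countable_x (y : ℝ) : {x : ℝ | (⟨x, y⟩ : ℂ) ∈ frontier Ω}.Countable := by
  have h := lineP_ne_zero (σ0 := σ0) (σ1 := σ1) D.hp D.h6 D.hcop (y * Complex.I) 1 one_ne_zero
  apply Set.Countable.mono (s₂ := (fun x : ℝ => (x : ℂ)) ⁻¹'
    {z | (lineP σ0 σ1 (PP p q) (y * Complex.I) 1).IsRoot z})
  · intro x hx
    change (lineP σ0 σ1 (PP p q) (y * Complex.I) 1).eval (x : ℂ) = 0
    rw [lineP_eval, show (y * Complex.I + x * 1 : ℂ) = ⟨x, y⟩ by rw [mk_x]; ring]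
    exact D.hfr _ hx
  · apply Set.Countable.preimage_of_injOn
    · exact (Polynomial.finite_setOfPred_isRoot h).countable
    · exact Complex.ofReal_injective.injOn

lemma countable_y (x : ℝ) : {y : ℝ | (⟨x, y⟩ : ℂ) ∈ frontier Ω}.Countable := by
  have h := lineP_ne_zero (σ0 := σ0) (σ1 := σ1) D.hp D.h6 D.hcop x Complex.I Complex.I_ne_zero
  apply Set.Countable.mono (s₂ := (fun x : ℝ => (x : ℂ)) ⁻¹'
    {z | (lineP σ0 σ1 (PP p q) x Complex.I).IsRoot z})
  · intro y hy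
    change (lineP σ0 σ1 (PP p q) x Complex.I).eval (y : ℂ) = 0
    rw [lineP_eval, ← mk_x]
    exact D.hfr _ hy
  · apply Set.Countable.preimage_of_injOn
    · exact (Polynomial.finite_setOfPred_isRoot h).countable
    · exact Complex.ofReal_injective.injOn

/-- a ray from a point of `Ω` meets the boundary -/
lemma exists_exit {ζ v : ℂ} (hζ : ζ ∈ Ω) (hv : v ≠ 0) :
    ∃ t : ℝ, 0 < t ∧ ζ + t * v ∈ frontier Ω := by
  have hv0 : 0 < ‖v‖ := norm_pos_iff.2 hv
  set T : ℝ := (R + ‖ζ‖) / ‖v‖ with hT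
  have hRpos := D.hR
  have hT0 : 0 ≤ T := by positivity
  have hc : Continuous (fun t : ℝ => ζ + t * v) := by fun_prop
  have hpre : IsPreconnected ((fun t : ℝ => ζ + t * v) '' Set.Icc 0 T) :=
    isPreconnected_Icc.image _ hc.continuousOn
  have hout : ζ + T * v ∉ Ω := by
    intro h
    have h1 := D.hΩR h
    rw [mem_ball_zero_iff] at h1
    have h2 : ‖(T : ℂ) * v‖ = R + ‖ζ‖ := by
      rw [norm_mul, Complex.norm_real, Real.norm_of_nonneg hT0, hT, div_mul_cancel₀ _ hv0.ne']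
    have h3 : ‖(T : ℂ) * v‖ ≤ ‖ζ + T * v‖ + ‖ζ‖ := by
      calc ‖(T : ℂ) * v‖ = ‖(ζ + T * v) - ζ‖ := by congr 1; ring
        _ ≤ _ := norm_sub_le _ _
    linarith
  have h : ∃ t ∈ Set.Icc 0 T, ζ + t * v ∈ frontier Ω := by
    by_contra hcon
    push Not at hcon
    have hcov : (fun t : ℝ => ζ + t * v) '' Set.Icc 0 T ⊆ Ω ∪ (closure Ω)ᶜ := by
      rintro _ ⟨t, ht, rfl⟩
      by_cases h1 : ζ + t * v ∈ Ω
      · exact Or.inl h1
      · refine Or.inr fun h2 => hcon t ht ?_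
        rw [D.hopen.frontier_eq]
        exact ⟨h2, h1⟩
    obtain ⟨z, -, hz1, hz2⟩ := hpre Ω (closure Ω)ᶜ D.hopen isClosed_closure.isOpen_compl hcov
      ⟨ζ, ⟨0, ⟨le_rfl, hT0⟩, by simp⟩, hζ⟩ ⟨ζ + T * v, ⟨T, ⟨hT0, le_rfl⟩, rfl⟩, (by
        rcases hcov ⟨T, ⟨hT0, le_rfl⟩, rfl⟩ with h1 | h1
        · exact absurd h1 hout
        · exact h1)⟩
    exact hz2 (subset_closure hz1)
  obtain ⟨t, ht, h2⟩ := h
  refine ⟨t, lt_of_le_of_ne ht.1 ?_, h2⟩
  rintro rfl
  simp only [Complex.ofReal_zero, zero_mul, add_zero] at h2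
  rw [D.hopen.frontier_eq] at h2
  exact h2.2 hζ

/-- The curve does not enter the domain. -/
lemma ne_zero {ζ : ℂ} (hζ : ζ ∈ Ω) : EE σ0 σ1 (PP p q) ζ ≠ 0 := by
  intro h0
  -- the derivatives are real
  have hx : (κ * Ex σ0 σ1 (PP p q) ζ).im = 0 := by
    have h := (hasDerivAt_x (σ0 := σ0) (σ1 := σ1) (PP p q) ζ.re ζ.im).const_mul κ
    exact im_deriv h (fun t => D.hreal _)
  have hy : (κ * Ey σ0 σ1 (PP p q) ζ).im = 0 := by
    have h := (hasDerivAt_y (σ0 := σ0) (σ1 := σ1) (PP p q) ζ.re ζ.im).const_mul κ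
    exact im_deriv h (fun t => D.hreal _)
  obtain ⟨v, hv, hv2⟩ : ∃ v : ℂ, v ≠ 0 ∧
      v.re * Ex σ0 σ1 (PP p q) ζ + v.im * Ey σ0 σ1 (PP p q) ζ = 0 := by
    by_cases hxx : κ * Ex σ0 σ1 (PP p q) ζ = 0
    · refine ⟨1, one_ne_zero, ?_⟩
      have := (mul_eq_zero.1 hxx).resolve_left D.hκ
      simp [this]
    · refine ⟨⟨-(κ * Ey σ0 σ1 (PP p q) ζ).re, (κ * Ex σ0 σ1 (PP p q) ζ).re⟩, ?_, ?_⟩
      · intro h
        have h2 := congrArg Complex.im h
        simp only [Complex.zero_im] at h2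
        exact hxx (Complex.ext h2 hx)
      · have ex : (((κ * Ex σ0 σ1 (PP p q) ζ).re : ℝ) : ℂ) = κ * Ex σ0 σ1 (PP p q) ζ :=
          Complex.ext (by simp) (by simp [hx])
        have ey : (((κ * Ey σ0 σ1 (PP p q) ζ).re : ℝ) : ℂ) = κ * Ey σ0 σ1 (PP p q) ζ :=
          Complex.ext (by simp) (by simp [hy])
        simp only [Complex.ofReal_neg]
        rw [ex, ey]
        ring
  obtain ⟨t1, ht1, hf1⟩ := D.exists_exit hζ hv
  obtain ⟨t2, ht2, hf2⟩ := D.exists_exit hζ (neg_ne_zero.2 hv)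
  set g := lineP σ0 σ1 (PP p q) ζ v with hg
  have hgne : g ≠ 0 := lineP_ne_zero D.hp D.h6 D.hcop ζ v hv
  have hg3 : g.natDegree ≤ 3 := lineP_deg D.hp D.hq ζ v
  have r0 : g.eval ((0 : ℝ) : ℂ) = 0 := by
    rw [hg, lineP_eval]
    simpa using h0
  have r1 : g.eval (t1 : ℂ) = 0 := by
    rw [hg, lineP_eval]
    exact D.hfr _ hf1
  have r2 : g.eval (((-t2 : ℝ)) : ℂ) = 0 := by
    rw [hg, lineP_eval]
    have := D.hfr _ hf2
    rw [show ζ + (((-t2 : ℝ)) : ℂ) * v = ζ + t2 * -v by push_cast; ring]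
    exact this
  have rd : (derivative g).eval 0 = 0 := by
    have h1 : HasDerivAt (fun t : ℝ => g.eval (t : ℂ)) ((derivative g).eval ((0 : ℝ) : ℂ)) 0 :=
      (g.hasDerivAt ((0 : ℝ) : ℂ)).comp_ofReal
    have h2 := hasDerivAt_dir (σ0 := σ0) (σ1 := σ1) (PP p q) ζ v 0
    have h3 : (fun t : ℝ => g.eval (t : ℂ)) = fun t : ℝ => EE σ0 σ1 (PP p q) (ζ + t * v) := by
      funext t
      rw [hg, lineP_eval]
    rw [h3] at h1
    have h4 := h1.unique h2
    simp only [Complex.ofReal_zero, zero_mul, add_zero] at h4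
    rw [h4]
    exact hv2
  simp only [Complex.ofReal_zero] at r0
  obtain ⟨g1, hg1⟩ : X ∣ g := by
    have := dvd_iff_isRoot.2 (show g.IsRoot 0 from r0)
    simpa using this
  have r3 : g1.eval 0 = 0 := by
    rw [hg1, derivative_mul, derivative_X] at rd
    simpa using rd
  obtain ⟨g2, hg2⟩ : X ∣ g1 := by
    have := dvd_iff_isRoot.2 (show g1.IsRoot 0 from r3)
    simpa using this
  have hg2ne : g2 ≠ 0 := by
    rintro rfl
    rw [hg1, hg2] at hgne
    simp at hgne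
  have hdeg : g2.natDegree ≤ 1 := by
    rw [hg1, hg2, ← mul_assoc, ← sq, natDegree_mul (pow_ne_zero 2 X_ne_zero) hg2ne,
      natDegree_pow, natDegree_X] at hg3
    omega
  have s1 : g2.IsRoot (t1 : ℂ) := by
    rw [hg1, hg2] at r1
    simp only [eval_mul, eval_X] at r1
    have : (t1 : ℂ) ≠ 0 := by exact_mod_cast ht1.ne'
    simpa [this] using r1
  have s2 : g2.IsRoot (((-t2 : ℝ)) : ℂ) := by
    rw [hg1, hg2] at r2
    simp only [eval_mul, eval_X] at r2
    have : (((-t2 : ℝ)) : ℂ) ≠ 0 := by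
      rw [Ne, Complex.ofReal_eq_zero]
      linarith
    have h3 := (mul_eq_zero.1 r2).resolve_left this
    exact (mul_eq_zero.1 h3).resolve_left this
  have hcard : ({(t1 : ℂ), (((-t2 : ℝ)) : ℂ)} : Finset ℂ).card ≤ g2.natDegree := by
    apply Polynomial.card_le_degree_of_subset_roots
    intro z hz
    have hz' : z ∈ ({(t1 : ℂ), (((-t2 : ℝ)) : ℂ)} : Finset ℂ) := hz
    rw [Finset.mem_insert, Finset.mem_singleton] at hz'
    rw [mem_roots hg2ne]
    rcases hz' with rfl | rfl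
    · exact s1
    · exact s2
  rw [Finset.card_pair (by
    intro h
    have : t1 = -t2 := by exact_mod_cast h
    linarith)] at hcard
  omega

/-- The polynomial has a constant sign in the domain. -/
lemma sign : ∃ τ : ℝ, (τ = 1 ∨ τ = -1) ∧ ∀ ζ ∈ Ω, 0 < τ * (κ * EE σ0 σ1 (PP p q) ζ).re := by
  have hc : Continuous (fun ζ => (κ * EE σ0 σ1 (PP p q) ζ).re) :=
    Complex.continuous_re.comp (continuous_const.mul (continuous_EE _))
  have hn : ∀ ζ ∈ Ω, (κ * EE σ0 σ1 (PP p q) ζ).re ≠ 0 := by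
    intro ζ hζ h
    exact mul_ne_zero D.hκ (D.ne_zero hζ) (Complex.ext h (D.hreal ζ))
  obtain ⟨ζ1, hζ1⟩ := D.hne
  rcases lt_or_gt_of_ne (hn ζ1 hζ1) with h1 | h1
  · refine ⟨-1, Or.inr rfl, fun ζ hζ => ?_⟩
    rcases lt_or_gt_of_ne (hn ζ hζ) with h2 | h2
    · linarith
    · obtain ⟨ξ, hξ, h0⟩ := D.hconn.intermediate_value hζ1 hζ hc.continuousOn
        (show (0 : ℝ) ∈ Set.Icc _ _ from ⟨h1.le, h2.le⟩)
      exact absurd h0 (hn ξ hξ)
  · refine ⟨1, Or.inl rfl, fun ζ hζ => ?_⟩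
    rcases lt_or_gt_of_ne (hn ζ hζ) with h2 | h2
    · obtain ⟨ξ, hξ, h0⟩ := D.hconn.intermediate_value hζ hζ1 hc.continuousOn
        (show (0 : ℝ) ∈ Set.Icc _ _ from ⟨h2.le, h1.le⟩)
      exact absurd h0 (hn ξ hξ)
    · linarith

end Dom

end Pool.Agent.P8H32.CT
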