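import Pool.Agent.P8H32.CT.Dom

/-!
The area functional of a domain bounded by a real cubic, and the positivity of its period.
-/

set_option autoImplicit false

namespace Pool.Agent.P8H32.CT

open Polynomial ComplexConjugate MeasureTheory Filter Topology

variable {p q : ℂ[X]} {σ0 σ1 κ : ℂ} {Ω : Set ℂ} {R : ℝ}

lemma EE_one_eq (F : RR) (ζ : ℂ) : EE σ0 σ1 (MvPolynomial.pderiv 1 F) ζ =
    2⁻¹ * Ex σ0 σ1 F ζ + (Complex.I * 2⁻¹) * Ey σ0 σ1 F ζ := by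
  unfold Ex Ey
  linear_combination (-2⁻¹ * EE σ0 σ1 (MvPolynomial.pderiv 0 F) ζ -
    2⁻¹ * (σ1 - 1) * EE σ0 σ1 (MvPolynomial.pderiv 1 F) ζ) * Complex.I_mul_I

lemma EE_zero_eq (F : RR) (ζ : ℂ) : EE σ0 σ1 (MvPolynomial.pderiv 0 F) ζ =
    ((1 - σ1) * 2⁻¹) * Ex σ0 σ1 F ζ - (Complex.I * (1 + σ1) * 2⁻¹) * Ey σ0 σ1 F ζ := by
  unfold Ex Ey
  linear_combination (2⁻¹ * (1 + σ1) * EE σ0 σ1 (MvPolynomial.pderiv 0 F) ζ +
    2⁻¹ * (1 + σ1) * (σ1 - 1) * EE σ0 σ1 (MvPolynomial.pderiv 1 F) ζ) * Complex.I_mul_I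

/-- the defining function normalised to be positive in the domain -/
noncomputable def GG (p q : ℂ[X]) (σ0 σ1 κ : ℂ) (τ : ℝ) (ζ : ℂ) : ℂ :=
  τ * (κ * EE σ0 σ1 (PP p q) ζ)

lemma continuous_GG (τ : ℝ) : Continuous (GG p q σ0 σ1 κ τ) :=
  continuous_const.mul (continuous_const.mul (continuous_EE _))

namespace Dom

variable (D : Dom p q σ0 σ1 κ Ω R)
include D

lemma isCompact : IsCompact (closure Ω) := (Metric.isBounded_ball.subset D.hΩR).isCompact_closure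

lemma integrableOn {f : ℂ → ℂ} (hf : ContinuousOn f (closure Ω)) : IntegrableOn f Ω :=
  (hf.integrableOn_compact D.isCompact).mono_set subset_closure

lemma integrableOn_EE (F : RR) : IntegrableOn (EE σ0 σ1 F) Ω :=
  D.integrableOn (continuous_EE F).continuousOn

lemma stokes_x (F : RR) : ∫ ζ in Ω, Ex σ0 σ1 (F * PP p q) ζ = 0 := by
  refine div_x D.hopen D.hR D.hΩR (f := EE σ0 σ1 (F * PP p q)) (continuous_EE _).continuousOn ?_
    (fun x y _ => hasDerivAt_x _ x y) D.countable_x (D.integrableOn (continuous_Ex _).continuousOn)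
  intro ζ hζ
  rw [EE_mul, D.hfr ζ hζ, mul_zero]

lemma stokes_y (F : RR) : ∫ ζ in Ω, Ey σ0 σ1 (F * PP p q) ζ = 0 := by
  refine div_y D.hopen D.hR D.hΩR (f := EE σ0 σ1 (F * PP p q)) (continuous_EE _).continuousOn ?_
    (fun x y _ => hasDerivAt_y _ x y) D.countable_y (D.integrableOn (continuous_Ey _).continuousOn)
  intro ζ hζ
  rw [EE_mul, D.hfr ζ hζ, mul_zero]

lemma stokes1 (F : RR) : ∫ ζ in Ω, EE σ0 σ1 (MvPolynomial.pderiv 1 (F * PP p q)) ζ = 0 := by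
  simp only [EE_one_eq (F * PP p q)]
  rw [integral_add, integral_const_mul, integral_const_mul, D.stokes_x, D.stokes_y, mul_zero,
    mul_zero, add_zero]
  · exact (D.integrableOn (continuous_Ex _).continuousOn).const_mul _
  · exact (D.integrableOn (continuous_Ey _).continuousOn).const_mul _

lemma stokes0 (F : RR) : ∫ ζ in Ω, EE σ0 σ1 (MvPolynomial.pderiv 0 (F * PP p q)) ζ = 0 := by
  simp only [EE_zero_eq (F * PP p q)]
  rw [integral_sub, integral_const_mul, integral_const_mul, D.stokes_x, D.stokes_y, mul_zero,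
    mul_zero, sub_zero]
  · exact (D.integrableOn (continuous_Ex _).continuousOn).const_mul _
  · exact (D.integrableOn (continuous_Ey _).continuousOn).const_mul _

omit D in
lemma GG_nonneg_aux (D : Dom p q σ0 σ1 κ Ω R) {τ : ℝ}
    (hτ : ∀ ζ ∈ Ω, 0 < τ * (κ * EE σ0 σ1 (PP p q) ζ).re) {ζ : ℂ} (hζ : ζ ∈ closure Ω) :
    ∃ r : ℝ, 0 ≤ r ∧ GG p q σ0 σ1 κ τ ζ = r := by
  refine ⟨τ * (κ * EE σ0 σ1 (PP p q) ζ).re, ?_, ?_⟩
  · by_cases h : ζ ∈ Ω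
    · exact (hτ ζ h).le
    · have h1 : ζ ∈ frontier Ω := by
        rw [D.hopen.frontier_eq]
        exact ⟨hζ, h⟩
      rw [D.hfr ζ h1]
      simp
  · unfold GG
    rw [Complex.ofReal_mul]
    congr 1
    apply Complex.ext
    · simp
    · rw [D.hreal ζ, Complex.ofReal_im]

lemma den_ne {τ : ℝ} (hτ : ∀ ζ ∈ Ω, 0 < τ * (κ * EE σ0 σ1 (PP p q) ζ).re) {ε : ℝ} (hε : 0 < ε)
    {ζ : ℂ} (hζ : ζ ∈ closure Ω) : GG p q σ0 σ1 κ τ ζ + ε ≠ 0 := by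
  obtain ⟨r, hr, h⟩ := D.GG_nonneg_aux hτ hζ
  rw [h, ← Complex.ofReal_add, Complex.ofReal_ne_zero]
  linarith

/-- The integrand of the cut-off divergence theorem is continuous. -/
lemma cut_cont {τ : ℝ} (hτ : ∀ ζ ∈ Ω, 0 < τ * (κ * EE σ0 σ1 (PP p q) ζ).re) {ε : ℝ} (hε : 0 < ε)
    {a b c : ℂ → ℂ} (ha : Continuous a) (hb : Continuous b) (hc : Continuous c) :
    ContinuousOn (fun ζ => a ζ * (GG p q σ0 σ1 κ τ ζ / (GG p q σ0 σ1 κ τ ζ + ε)) +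
      b ζ * (ε * c ζ / (GG p q σ0 σ1 κ τ ζ + ε) ^ 2)) (closure Ω) := by
  have hg : Continuous (GG p q σ0 σ1 κ τ) := continuous_GG τ
  have hd : ∀ ζ ∈ closure Ω, GG p q σ0 σ1 κ τ ζ + ε ≠ 0 := fun ζ hζ => D.den_ne hτ hε hζ
  apply ContinuousOn.add
  · apply ha.continuousOn.mul
    exact hg.continuousOn.div (hg.add continuous_const).continuousOn hd
  · apply hb.continuousOn.mul
    apply (continuous_const.mul hc).continuousOn.div ((hg.add continuous_const).pow 2).continuousOn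
    intro ζ hζ
    exact pow_ne_zero 2 (hd ζ hζ)

lemma cut_frontier {τ : ℝ} {ε : ℝ} (F : RR) {ζ : ℂ} (hζ : ζ ∈ frontier Ω) :
    EE σ0 σ1 F ζ * (GG p q σ0 σ1 κ τ ζ / (GG p q σ0 σ1 κ τ ζ + ε)) = 0 := by
  have : GG p q σ0 σ1 κ τ ζ = 0 := by
    unfold GG
    rw [D.hfr ζ hζ]
    simp
  rw [this]
  simp

lemma cut_x {τ : ℝ} (hτ : ∀ ζ ∈ Ω, 0 < τ * (κ * EE σ0 σ1 (PP p q) ζ).re) {ε : ℝ} (hε : 0 < ε)
    (F : RR) :
    ∫ ζ in Ω, (Ex σ0 σ1 F ζ * (GG p q σ0 σ1 κ τ ζ / (GG p q σ0 σ1 κ τ ζ + ε)) +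
      EE σ0 σ1 F ζ * (ε * (τ * (κ * Ex σ0 σ1 (PP p q) ζ)) / (GG p q σ0 σ1 κ τ ζ + ε) ^ 2)) = 0 := by
  refine div_x D.hopen D.hR D.hΩR
    (f := fun ζ => EE σ0 σ1 F ζ * (GG p q σ0 σ1 κ τ ζ / (GG p q σ0 σ1 κ τ ζ + ε))) ?_
    (fun ζ hζ => D.cut_frontier F hζ) ?_ D.countable_x
    (D.integrableOn (D.cut_cont hτ hε (continuous_Ex F) (continuous_EE F)
      (continuous_const.mul (continuous_const.mul (continuous_Ex _)))))
  · have h := D.cut_cont hτ hε (continuous_EE (σ0 := σ0) (σ1 := σ1) F)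
      (b := fun _ => 0) (c := fun _ => 0) continuous_const continuous_const
    simpa using h
  · intro x y hxy
    have hd := D.den_ne hτ hε (subset_closure hxy)
    have hg : HasDerivAt (fun t : ℝ => GG p q σ0 σ1 κ τ ⟨t, y⟩)
        (τ * (κ * Ex σ0 σ1 (PP p q) ⟨x, y⟩)) x :=
      ((hasDerivAt_x (PP p q) x y).const_mul κ).const_mul (τ : ℂ)
    have h1 := (hasDerivAt_x (σ0 := σ0) (σ1 := σ1) F x y).mul (hg.div (hg.add_const (ε : ℂ)) hd)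
    refine h1.congr_deriv ?_
    congr 1
    congr 2
    ring

lemma cut_y {τ : ℝ} (hτ : ∀ ζ ∈ Ω, 0 < τ * (κ * EE σ0 σ1 (PP p q) ζ).re) {ε : ℝ} (hε : 0 < ε)
    (F : RR) :
    ∫ ζ in Ω, (Ey σ0 σ1 F ζ * (GG p q σ0 σ1 κ τ ζ / (GG p q σ0 σ1 κ τ ζ + ε)) +
      EE σ0 σ1 F ζ * (ε * (τ * (κ * Ey σ0 σ1 (PP p q) ζ)) / (GG p q σ0 σ1 κ τ ζ + ε) ^ 2)) = 0 := by
  refine div_y D.hopen D.hR D.hΩR
    (f := fun ζ => EE σ0 σ1 F ζ * (GG p q σ0 σ1 κ τ ζ / (GG p q σ0 σ1 κ τ ζ + ε))) ?_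
    (fun ζ hζ => D.cut_frontier F hζ) ?_ D.countable_y
    (D.integrableOn (D.cut_cont hτ hε (continuous_Ey F) (continuous_EE F)
      (continuous_const.mul (continuous_const.mul (continuous_Ey _)))))
  · have h := D.cut_cont hτ hε (continuous_EE (σ0 := σ0) (σ1 := σ1) F)
      (b := fun _ => 0) (c := fun _ => 0) continuous_const continuous_const
    simpa using h
  · intro x y hxy
    have hd := D.den_ne hτ hε (subset_closure hxy)
    have hg : HasDerivAt (fun t : ℝ => GG p q σ0 σ1 κ τ ⟨x, t⟩)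
        (τ * (κ * Ey σ0 σ1 (PP p q) ⟨x, y⟩)) y :=
      ((hasDerivAt_y (PP p q) x y).const_mul κ).const_mul (τ : ℂ)
    have h1 := (hasDerivAt_y (σ0 := σ0) (σ1 := σ1) F x y).mul (hg.div (hg.add_const (ε : ℂ)) hd)
    refine h1.congr_deriv ?_
    congr 1
    congr 2
    ring

/-- the divergence theorem for the fields `b φ`, `c φ` with the cut-off `φ` -/
lemma total {U V : ℂ[X]} (hUV : U * del p q + V * derivative (del p q) = 1) {τ : ℝ}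
    (hτ : ∀ ζ ∈ Ω, 0 < τ * (κ * EE σ0 σ1 (PP p q) ζ).re) {ε : ℝ} (hε : 0 < ε) :
    ∫ ζ in Ω, (EE σ0 σ1 (MvPolynomial.pderiv 0 (bB V) + MvPolynomial.pderiv 1 (bC p q U V)) ζ *
      (GG p q σ0 σ1 κ τ ζ / (GG p q σ0 σ1 κ τ ζ + ε)) +
      (τ * κ - EE σ0 σ1 (bA p q U V) ζ * GG p q σ0 σ1 κ τ ζ) *
        (ε * 1 / (GG p q σ0 σ1 κ τ ζ + ε) ^ 2)) = 0 := by
  set Xi : RR → ℂ → ℂ := fun F ζ =>
    (Ex σ0 σ1 F ζ * (GG p q σ0 σ1 κ τ ζ / (GG p q σ0 σ1 κ τ ζ + ε)) +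
      EE σ0 σ1 F ζ * (ε * (τ * (κ * Ex σ0 σ1 (PP p q) ζ)) / (GG p q σ0 σ1 κ τ ζ + ε) ^ 2)) with hXi
  set Yi : RR → ℂ → ℂ := fun F ζ =>
    (Ey σ0 σ1 F ζ * (GG p q σ0 σ1 κ τ ζ / (GG p q σ0 σ1 κ τ ζ + ε)) +
      EE σ0 σ1 F ζ * (ε * (τ * (κ * Ey σ0 σ1 (PP p q) ζ)) / (GG p q σ0 σ1 κ τ ζ + ε) ^ 2)) with hYi
  have iX : ∀ F, IntegrableOn (Xi F) Ω := fun F =>
    D.integrableOn (D.cut_cont hτ hε (continuous_Ex F) (continuous_EE F)
      (continuous_const.mul (continuous_const.mul (continuous_Ex _))))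
  have iY : ∀ F, IntegrableOn (Yi F) Ω := fun F =>
    D.integrableOn (D.cut_cont hτ hε (continuous_Ey F) (continuous_EE F)
      (continuous_const.mul (continuous_const.mul (continuous_Ey _))))
  have key : ∀ ζ, (EE σ0 σ1 (MvPolynomial.pderiv 0 (bB V) + MvPolynomial.pderiv 1 (bC p q U V)) ζ *
      (GG p q σ0 σ1 κ τ ζ / (GG p q σ0 σ1 κ τ ζ + ε)) +
      (τ * κ - EE σ0 σ1 (bA p q U V) ζ * GG p q σ0 σ1 κ τ ζ) *
        (ε * 1 / (GG p q σ0 σ1 κ τ ζ + ε) ^ 2)) =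
      (((1 - σ1) * 2⁻¹) * Xi (bB V) ζ - (Complex.I * (1 + σ1) * 2⁻¹) * Yi (bB V) ζ) +
      (2⁻¹ * Xi (bC p q U V) ζ + (Complex.I * 2⁻¹) * Yi (bC p q U V) ζ) := by
    intro ζ
    have hb := congrArg (fun F => EE σ0 σ1 F ζ) (bezout hUV)
    have h1 : EE σ0 σ1 (1 : RR) ζ = 1 := by simp [EE]
    simp only [EE_add, EE_mul, h1] at hb
    rw [← pd0_PP p q, ← pd1_PP p q, EE_zero_eq, EE_one_eq] at hb
    rw [EE_add, EE_zero_eq, EE_one_eq, hXi, hYi]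
    simp only [div_eq_mul_inv]
    generalize (GG p q σ0 σ1 κ τ ζ + ε)⁻¹ = u
    have hu : ((GG p q σ0 σ1 κ τ ζ + ε) ^ 2)⁻¹ = ((GG p q σ0 σ1 κ τ ζ + ε)⁻¹) ^ 2 := by
      rw [inv_pow]
    generalize ((GG p q σ0 σ1 κ τ ζ + ε) ^ 2)⁻¹ = u2
    unfold GG
    linear_combination (-(τ : ℂ) * κ * ε * u2) * hb
  simp only [key]
  rw [integral_add, integral_sub, integral_add, integral_const_mul, integral_const_mul,
    integral_const_mul, integral_const_mul, hXi, hYi, D.cut_x hτ hε, D.cut_x hτ hε,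
    D.cut_y hτ hε, D.cut_y hτ hε]
  · ring
  · exact (iX _).const_mul _
  · exact (iY _).const_mul _
  · exact (iX _).const_mul _
  · exact (iY _).const_mul _
  · exact ((iX _).const_mul _).sub ((iY _).const_mul _)
  · exact ((iX _).const_mul _).add ((iY _).const_mul _)

end Dom

end Pool.Agent.P8H32.CT
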