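import Pool.Agent.P8H32.CT.Per

/-!
From an algebraic relation for the Cauchy transform near infinity to an algebraic relation for the
series of moments.
-/

set_option autoImplicit false

namespace Pool.Agent.P8H32.CT

open Polynomial Filter Topology Asymptotics MeasureTheory

/-- `f` has the asymptotic expansion `φ` at `0`. -/
def Rel (f : ℂ → ℂ) (φ : PowerSeries ℂ) : Prop :=
  ∀ M : ℕ, ∃ p : ℂ[X], (∀ n < M, PowerSeries.coeff n φ = p.coeff n) ∧
    (fun t => f t - p.eval t) =O[𝓝[≠] 0] (fun t : ℂ => t ^ M)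

lemma rel_poly (p : ℂ[X]) : Rel (fun t => p.eval t) (p : PowerSeries ℂ) := by
  intro M
  refine ⟨p, fun n _ => Polynomial.coeff_coe p n, ?_⟩
  simp only [sub_self]
  exact isBigO_zero _ _

lemma Rel.add {f g : ℂ → ℂ} {φ ψ : PowerSeries ℂ} (hf : Rel f φ) (hg : Rel g ψ) :
    Rel (fun t => f t + g t) (φ + ψ) := by
  intro M
  obtain ⟨p, hp, hp2⟩ := hf M
  obtain ⟨r, hr, hr2⟩ := hg M
  refine ⟨p + r, fun n hn => by rw [map_add, hp n hn, hr n hn, coeff_add], ?_⟩
  refine (hp2.add hr2).congr_left fun t => ?_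
  rw [eval_add]
  ring

lemma poly_bdd (p : ℂ[X]) : (fun t => p.eval t) =O[𝓝[≠] (0 : ℂ)] (fun _ => (1 : ℂ)) :=
  ((p.continuous.tendsto 0).isBigO_one ℂ).mono nhdsWithin_le_nhds

lemma Rel.bdd {f : ℂ → ℂ} {φ : PowerSeries ℂ} (hf : Rel f φ) :
    f =O[𝓝[≠] 0] (fun _ => (1 : ℂ)) := by
  obtain ⟨p, -, hp⟩ := hf 0
  simp only [pow_zero] at hp
  refine (hp.add (poly_bdd p)).congr_left fun t => ?_
  ring

lemma Rel.mul {f g : ℂ → ℂ} {φ ψ : PowerSeries ℂ} (hf : Rel f φ) (hg : Rel g ψ) :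
    Rel (fun t => f t * g t) (φ * ψ) := by
  intro M
  obtain ⟨p, hp, hp2⟩ := hf M
  obtain ⟨r, hr, hr2⟩ := hg M
  refine ⟨p * r, fun n hn => ?_, ?_⟩
  · rw [PowerSeries.coeff_mul, Polynomial.coeff_mul]
    refine Finset.sum_congr rfl fun ij hij => ?_
    have h := Finset.HasAntidiagonal.mem_antidiagonal.1 hij
    rw [hp _ (by omega), hr _ (by omega)]
  · have h2 : (fun t => (f t - p.eval t) * g t + p.eval t * (g t - r.eval t)) =O[𝓝[≠] 0]
        (fun t : ℂ => t ^ M) := by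
      have ha := hp2.mul hg.bdd
      have hb := (poly_bdd p).mul hr2
      simp only [mul_one, one_mul] at ha hb
      exact ha.add hb
    refine h2.congr_left fun t => ?_
    rw [eval_mul]
    ring

lemma Rel.pow {f : ℂ → ℂ} {φ : PowerSeries ℂ} (hf : Rel f φ) (n : ℕ) :
    Rel (fun t => f t ^ n) (φ ^ n) := by
  induction n with
  | zero =>
    have h := rel_poly 1
    simpa using h
  | succ n ih =>
    simp only [pow_succ]
    exact ih.mul hf

lemma Rel.sum {ι : Type*} (s : Finset ι) {f : ι → ℂ → ℂ} {φ : ι → PowerSeries ℂ}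
    (h : ∀ i ∈ s, Rel (f i) (φ i)) : Rel (fun t => ∑ i ∈ s, f i t) (∑ i ∈ s, φ i) := by
  classical
  induction s using Finset.induction_on with
  | empty =>
    have h := rel_poly 0
    simpa using h
  | insert i s hi ih =>
    simp only [Finset.sum_insert hi]
    exact (h i (Finset.mem_insert_self i s)).add
      (ih fun j hj => h j (Finset.mem_insert_of_mem hj))

/-- A polynomial which is `O (t ^ M)` is divisible by `t ^ M`. -/
lemma poly_small (p : ℂ[X]) (M : ℕ) (h : (fun t => p.eval t) =O[𝓝[≠] 0] (fun t : ℂ => t ^ M)) :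
    ∀ k ≤ M, X ^ k ∣ p := by
  intro k
  induction k with
  | zero => intro _; simp
  | succ k ih =>
    intro hk
    obtain ⟨g, hg⟩ := ih (by omega)
    have h1 : (fun t => g.eval t) =O[𝓝[≠] 0] (fun t : ℂ => t ^ (M - k)) := by
      have h2 := h.mul (isBigO_refl (fun t : ℂ => (t ^ k)⁻¹) (𝓝[≠] 0))
      refine (h2.congr' ?_ ?_)
      · filter_upwards [self_mem_nhdsWithin] with t ht
        have ht' : t ≠ 0 := ht
        rw [hg, eval_mul, eval_pow, eval_X]
        field_simp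
      · filter_upwards [self_mem_nhdsWithin] with t ht
        have ht' : t ≠ 0 := ht
        rw [← div_eq_mul_inv, pow_sub₀ t ht' (by omega), div_eq_mul_inv]
    have h3 : Tendsto (fun t : ℂ => t ^ (M - k)) (𝓝[≠] 0) (𝓝 0) := by
      have h4 : Tendsto (fun t : ℂ => t ^ (M - k)) (𝓝 0) (𝓝 (0 ^ (M - k))) :=
        (continuous_pow (M - k)).tendsto 0
      rw [zero_pow (by omega)] at h4
      exact h4.mono_left nhdsWithin_le_nhds
    have h5 := h1.trans_tendsto h3
    have h6 : Tendsto (fun t => g.eval t) (𝓝[≠] 0) (𝓝 (g.eval 0)) :=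
      (g.continuous.tendsto 0).mono_left nhdsWithin_le_nhds
    have h7 : g.eval 0 = 0 := tendsto_nhds_unique h6 h5
    obtain ⟨g', hg'⟩ : X ∣ g := by
      have := dvd_iff_isRoot.2 (show g.IsRoot 0 from h7)
      simpa using this
    exact ⟨g', by rw [hg, hg', pow_succ, mul_assoc]⟩

lemma rel_zero {f : ℂ → ℂ} {φ : PowerSeries ℂ} (hf : Rel f φ) (h0 : ∀ᶠ t in 𝓝[≠] 0, f t = 0) :
    φ = 0 := by
  ext n
  obtain ⟨p, hp, hp2⟩ := hf (n + 1)
  rw [hp n (by omega)]
  have h1 : (fun t => p.eval t) =O[𝓝[≠] 0] (fun t : ℂ => t ^ (n + 1)) := by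
    refine (hp2.neg_left).congr' ?_ EventuallyEq.rfl
    filter_upwards [h0] with t ht
    rw [ht]
    ring
  have h2 := poly_small p (n + 1) h1 (n + 1) le_rfl
  rw [X_pow_dvd_iff] at h2
  rw [h2 n (by omega)]
  simp

/-- power series in `t` -/
noncomputable def io : PowerSeries ℂ →+* LS := HahnSeries.ofPowerSeries ℤ ℂ

lemma io_cf (φ : PowerSeries ℂ) (n : ℕ) : cf (io φ) n = PowerSeries.coeff n φ :=
  HahnSeries.ofPowerSeries_apply_coeff φ n

lemma io_cf_neg (φ : PowerSeries ℂ) (n : ℤ) (hn : n < 0) : cf (io φ) n = 0 := by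
  change HahnSeries.coeff (HahnSeries.ofPowerSeries ℤ ℂ φ) n = 0
  rw [HahnSeries.ofPowerSeries_apply]
  apply HahnSeries.embDomain_of_notMem_range
  rintro ⟨m, hm⟩
  change (m : ℤ) = n at hm
  omega

lemma io_reflect (f : ℂ[X]) (N : ℕ) (hf : f.natDegree ≤ N) :
    io (reflect N f : ℂ[X]) = mono N 1 * ev f := by
  apply ext'
  intro n
  rw [mono_mul_cf, one_mul]
  rcases lt_or_ge n 0 with hn | hn
  · rw [io_cf_neg _ _ hn]
    obtain ⟨m, hm⟩ : ∃ m : ℕ, n - N = -(m : ℤ) := ⟨(n - N).natAbs, by omega⟩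
    rw [hm, ev_cf_neg, coeff_eq_zero_of_natDegree_lt (by omega)]
  · obtain ⟨m, rfl⟩ : ∃ m : ℕ, n = m := ⟨n.toNat, by omega⟩
    rw [io_cf, Polynomial.coeff_coe, coeff_reflect]
    rcases le_or_gt m N with hm | hm
    · rw [revAt_le hm, show ((m : ℤ) - N) = -((N - m : ℕ) : ℤ) by omega, ev_cf_neg]
    · rw [revAt_eq_self_of_lt hm, coeff_eq_zero_of_natDegree_lt (by omega),
        ev_cf_pos _ _ (by omega)]

lemma reflect_eval (f : ℂ[X]) (N : ℕ) (hf : f.natDegree ≤ N) (t : ℂ) (ht : t ≠ 0) :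
    (reflect N f).eval t = t ^ N * f.eval t⁻¹ := by
  let _ : Invertible t⁻¹ := ⟨t, by rw [mul_inv_cancel₀ ht], by rw [inv_mul_cancel₀ ht]⟩
  have h := eval₂_reflect_mul_pow (RingHom.id ℂ) t⁻¹ N f hf
  change eval t (reflect N f) * t⁻¹ ^ N = eval t⁻¹ f at h
  rw [← h, inv_pow]
  field_simp

/-- the power series of moments -/
noncomputable def mom (lam : ℂ[X] →ₗ[ℂ] ℂ) : PowerSeries ℂ :=
  PowerSeries.mk fun n => if n = 0 then 0 else lam (X ^ (n - 1))

lemma io_mom (lam : ℂ[X] →ₗ[ℂ] ℂ) : io (mom lam) = ser lam := by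
  apply ext'
  intro n
  rw [ser_cf]
  rcases lt_or_ge n 0 with hn | hn
  · rw [io_cf_neg _ _ hn, if_neg (by omega)]
  · obtain ⟨m, rfl⟩ : ∃ m : ℕ, n = m := ⟨n.toNat, by omega⟩
    rw [io_cf, mom, PowerSeries.coeff_mk]
    rcases Nat.eq_zero_or_pos m with h | h
    · subst h
      simp
    · rw [if_neg (by omega), if_pos (by omega)]
      congr 2
      omega

/-- **Transfer of algebraicity.** -/
theorem algebraic_of_rel {F : ℂ → ℂ} {lam : ℂ[X] →ₗ[ℂ] ℂ} (hF : Rel (fun t => F t⁻¹) (mom lam))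
    {Q : ℂ[X][X]} (hQ : Q ≠ 0) (h : ∀ᶠ t in 𝓝[≠] (0 : ℂ), Q.evalEval t⁻¹ (F t⁻¹) = 0) :
    IsAlgebraic kZ (ser lam) := by
  obtain ⟨N, hN⟩ : ∃ N : ℕ, ∀ j, (Q.coeff j).natDegree ≤ N := by
    refine ⟨Q.support.sup fun j => (Q.coeff j).natDegree, fun j => ?_⟩
    by_cases hj : j ∈ Q.support
    · exact Finset.le_sup (f := fun j => (Q.coeff j).natDegree) hj
    · rw [notMem_support_iff.1 hj]
      simp
  have h1 : Rel (fun t => ∑ j ∈ Q.support, (reflect N (Q.coeff j)).eval t * (F t⁻¹) ^ j)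
      (∑ j ∈ Q.support, (reflect N (Q.coeff j) : ℂ[X]) * (mom lam) ^ j) :=
    Rel.sum _ fun j _ => (rel_poly _).mul (hF.pow j)
  have h2 := rel_zero h1 (by
    filter_upwards [h, self_mem_nhdsWithin] with t ht ht0
    have ht0' : t ≠ 0 := ht0
    have h3 : ∀ j ∈ Q.support, (reflect N (Q.coeff j)).eval t * (F t⁻¹) ^ j =
        t ^ N * ((Q.coeff j).eval t⁻¹ * (F t⁻¹) ^ j) := by
      intro j _
      rw [reflect_eval _ _ (hN j) t ht0', mul_assoc]
    rw [Finset.sum_congr rfl h3, ← Finset.mul_sum]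
    rw [← eval₂_evalRingHom, eval₂_eq_sum, Polynomial.sum_def] at ht
    simp only [coe_evalRingHom] at ht
    rw [ht, mul_zero])
  have h3 := congrArg io h2
  rw [map_sum, map_zero] at h3
  simp only [map_mul, map_pow, io_mom] at h3
  simp only [io_reflect _ N (hN _)] at h3
  simp only [mul_assoc] at h3
  rw [← Finset.mul_sum] at h3
  have hmono : mono N 1 ≠ 0 := by
    intro h0
    have := congrArg (fun x => cf x N) h0
    simp only [cf_mono, cf_zero, if_true] at this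
    exact one_ne_zero this
  have h4 := (mul_eq_zero.1 h3).resolve_left hmono
  -- the polynomial over the field of rational functions
  let evK : ℂ[X] →+* kZ := ev.codRestrict kZ.toSubfield ev_mem
  have hevK : ∀ f, ((evK f : kZ) : LS) = ev f := fun f => rfl
  have hinj : Function.Injective evK := by
    intro f g hfg
    apply ev_injective
    rw [← hevK, ← hevK, hfg]
  refine ⟨Q.map evK, (Polynomial.map_ne_zero_iff hinj).2 hQ, ?_⟩
  rw [Polynomial.aeval_def, Polynomial.eval₂_map, eval₂_eq_sum, Polynomial.sum_def]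
  exact h4

end Pool.Agent.P8H32.CT
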