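import Pool.Agent.P8H32.CT.Pole

/-!
Solutions of the homogeneous system in Laurent series at infinity.
-/

set_option autoImplicit false

namespace Pool.Agent.P8H32.CT

open Polynomial

lemma bdd_below (x : LS) : ∃ N : ℤ, ∀ n < N, cf x n = 0 :=
  ⟨HahnSeries.order (Γ := ℤ) (R := ℂ) x, fun _ hn =>
    HahnSeries.coeff_eq_zero_of_lt_order (Γ := ℤ) (R := ℂ) hn⟩

lemma n00_eq (p q : ℂ[X]) : n00 p q = C (1 / 3) * derivative (del p q) := by
  rw [der_del, n00]
  have h1 : (C (1 / 3) : ℂ[X]) * 3 = 1 := by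
    rw [← C_ofNat, ← C_mul]; norm_num
  linear_combination (-(6 * q * derivative q * 3) - 4 * p ^ 2 * derivative p) * h1

lemma n11_eq (p q : ℂ[X]) : n11 p q = C (1 / 6) * derivative (del p q) := by
  rw [der_del, n11]
  have h1 : (C (1 / 6) : ℂ[X]) * 6 = 1 := by
    rw [← C_ofNat, ← C_mul]; norm_num
  linear_combination (-(9 * q * derivative q) - 2 * p ^ 2 * derivative p) * h1

lemma n10_eq (p q : ℂ[X]) : 3 * n10 p q = -(2 * p * n01 p q) := by
  rw [n10, n01]
  ring

lemma coeff_der_del {p q : ℂ[X]} : (derivative (del p q)).coeff 5 = 6 * (del p q).coeff 6 := by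
  rw [coeff_derivative]
  push_cast
  ring

lemma n01_deg {p q : ℂ[X]} (hp : p.natDegree ≤ 2) (hq : q.natDegree ≤ 3) :
    (n01 p q).natDegree ≤ 3 := by
  have hp' : p = C (p.coeff 2) * X ^ 2 + C (p.coeff 1) * X + C (p.coeff 0) :=
    eq_quadratic_of_degree_le_two (natDegree_le_iff_degree_le.1 hp)
  have hq' : q = C (q.coeff 3) * X ^ 3 + C (q.coeff 2) * X ^ 2 + C (q.coeff 1) * X +
      C (q.coeff 0) := by
    conv_lhs => rw [q.as_sum_range' 4 (by omega)]
    simp only [Finset.sum_range_succ, Finset.sum_range_zero, ← C_mul_X_pow_eq_monomial]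
    ring
  set a2 := p.coeff 2
  set a1 := p.coeff 1
  set a0 := p.coeff 0
  set b3 := q.coeff 3
  set b2 := q.coeff 2
  set b1 := q.coeff 1
  set b0 := q.coeff 0
  have h : n01 p q = C (9 * b3 * a1 + 18 * b2 * a2 - 12 * a2 * b2 - 18 * a1 * b3) * X ^ 3 +
      C (9 * b2 * a1 + 18 * b1 * a2 - 6 * a2 * b1 - 12 * a1 * b2 - 18 * a0 * b3) * X ^ 2 +
      C (9 * b1 * a1 + 18 * b0 * a2 - 6 * a1 * b1 - 12 * a0 * b2) * X +
      C (9 * b0 * a1 - 6 * a0 * b1) := by
    rw [n01, hp', hq']
    simp only [derivative_add, derivative_mul, derivative_C, derivative_X_pow, derivative_X,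
      zero_mul, zero_add, mul_one, add_zero, map_add, map_sub, map_mul, map_ofNat]
    push_cast
    simp only [map_ofNat]
    ring
  rw [h]
  compute_degree

lemma n10_deg {p q : ℂ[X]} (hp : p.natDegree ≤ 2) (hq : q.natDegree ≤ 3) :
    (n10 p q).natDegree ≤ 5 := by
  have h := n10_eq p q
  have h2 : n10 p q = C (-(2 / 3)) * (p * n01 p q) := by
    have h1 : (C (-(2 / 3)) : ℂ[X]) * 3 = -2 := by
      rw [← C_ofNat, ← C_mul]; norm_num; rfl
    have h3 : (3 : ℂ[X]) ≠ 0 := by
      rw [← C_ofNat]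
      exact C_ne_zero.2 (by norm_num)
    apply mul_left_cancel₀ h3
    linear_combination h - p * n01 p q * h1
  rw [h2]
  refine (natDegree_C_mul_le _ _).trans (natDegree_mul_le.trans ?_)
  have := n01_deg hp hq
  omega

/-- Laurent series solutions of the homogeneous system. -/
lemma order_at_infinity {p q : ℂ[X]} (hp : p.natDegree ≤ 2) (hq : q.natDegree ≤ 3)
    (h6 : (del p q).natDegree = 6) {B0 B1 : LS}
    (h0 : ev (del p q) * DZ B0 + ev (n00 p q) * B0 + ev (n01 p q) * B1 = 0)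
    (h1 : ev (del p q) * DZ B1 + ev (n10 p q) * B0 + ev (n11 p q) * B1 = 0) :
    ∀ n < 2, cf B0 n = 0 := by
  intro n hn
  by_contra hne
  obtain ⟨N0, hN0⟩ := bdd_below B0
  obtain ⟨N1, hN1⟩ := bdd_below B1
  obtain ⟨v, hv, hmin⟩ := Int.exists_least_of_bdd
    (P := fun v => cf B0 v ≠ 0 ∨ cf B1 (v - 1) ≠ 0) ⟨min N0 N1, by
      intro z hz
      by_contra hlt
      push Not at hlt
      rcases hz with hz | hz
      · exact hz (hN0 z (by omega))
      · exact hz (hN1 (z - 1) (by omega))⟩ ⟨n, Or.inl hne⟩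
  have hvn : v ≤ n := hmin n (Or.inl hne)
  have hB0 : ∀ m < v, cf B0 m = 0 := by
    intro m hm
    by_contra h
    exact absurd (hmin m (Or.inl h)) (by omega)
  have hB1 : ∀ m < v - 1, cf B1 m = 0 := by
    intro m hm
    by_contra h
    exact absurd (hmin (m + 1) (Or.inr (by rwa [add_sub_cancel_right]))) (by omega)
  have hδ : (del p q).coeff 6 ≠ 0 := by
    rw [← h6, coeff_natDegree]
    intro h
    rw [leadingCoeff_eq_zero] at h
    rw [h] at h6
    simp at h6
  have hd5 : (derivative (del p q)).natDegree ≤ 5 := by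
    have := natDegree_derivative_le (del p q)
    omega
  have hD0 : ∀ m < v + 1, cf (DZ B0) m = 0 := by
    intro m hm
    rw [DZ_cf, hB0 _ (by omega), mul_zero]
  have hD1 : ∀ m < v, cf (DZ B1) m = 0 := by
    intro m hm
    rw [DZ_cf, hB1 _ (by omega), mul_zero]
  have c00 : (n00 p q).coeff 5 = 2 * (del p q).coeff 6 := by
    rw [n00_eq, coeff_C_mul, coeff_der_del]; ring
  have c11 : (n11 p q).coeff 5 = (del p q).coeff 6 := by
    rw [n11_eq, coeff_C_mul, coeff_der_del]; ring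
  have d00 : (n00 p q).natDegree ≤ 5 := by
    rw [n00_eq]; exact (natDegree_C_mul_le _ _).trans hd5
  have d11 : (n11 p q).natDegree ≤ 5 := by
    rw [n11_eq]; exact (natDegree_C_mul_le _ _).trans hd5
  -- first equation
  have e0 := congrArg (fun x => cf x (v - 5)) h0
  simp only [cf_add, cf_zero] at e0
  have t1 : cf (ev (del p q) * DZ B0) (v - 5) = (del p q).coeff 6 * (-(v : ℂ) * cf B0 v) := by
    have := ev_mul_cf_top (del p q) (DZ B0) 6 (v + 1) h6.le hD0
    rw [show v + 1 - ((6 : ℕ) : ℤ) = v - 5 by push_cast; ring] at this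
    rw [this, DZ_cf, add_sub_cancel_right]
  have t2 : cf (ev (n00 p q) * B0) (v - 5) = 2 * (del p q).coeff 6 * cf B0 v := by
    have := ev_mul_cf_top (n00 p q) B0 5 v d00 hB0
    rw [show v - ((5 : ℕ) : ℤ) = v - 5 by push_cast; ring] at this
    rw [this, c00]
  have t3 : cf (ev (n01 p q) * B1) (v - 5) = 0 :=
    ev_mul_cf_zero (n01 p q) B1 3 (v - 1) (v - 5) (n01_deg hp hq) hB1 (by push_cast; omega)
  rw [t1, t2, t3] at e0
  -- second equation
  have e1 := congrArg (fun x => cf x (v - 6)) h1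
  simp only [cf_add, cf_zero] at e1
  have s1 : cf (ev (del p q) * DZ B1) (v - 6) =
      (del p q).coeff 6 * (-((v : ℂ) - 1) * cf B1 (v - 1)) := by
    have := ev_mul_cf_top (del p q) (DZ B1) 6 v h6.le hD1
    rw [show v - ((6 : ℕ) : ℤ) = v - 6 by push_cast; ring] at this
    rw [this, DZ_cf]
    push_cast
    ring
  have s2 : cf (ev (n10 p q) * B0) (v - 6) = 0 :=
    ev_mul_cf_zero (n10 p q) B0 5 v (v - 6) (n10_deg hp hq) hB0 (by push_cast; omega)
  have s3 : cf (ev (n11 p q) * B1) (v - 6) = (del p q).coeff 6 * cf B1 (v - 1) := by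
    have := ev_mul_cf_top (n11 p q) B1 5 (v - 1) d11 hB1
    rw [show v - 1 - ((5 : ℕ) : ℤ) = v - 6 by push_cast; ring] at this
    rw [this, c11]
  rw [s1, s2, s3] at e1
  have hv2 : (v : ℂ) - 2 ≠ 0 := by
    intro h
    have : v = 2 := by
      have h' : (v : ℂ) = 2 := by linear_combination h
      exact_mod_cast h'
    omega
  rcases hv with h | h
  · have : (del p q).coeff 6 * ((v : ℂ) - 2) * cf B0 v = 0 := by linear_combination -e0
    exact (mul_ne_zero (mul_ne_zero hδ hv2) h) this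
  · have : (del p q).coeff 6 * ((v : ℂ) - 2) * cf B1 (v - 1) = 0 := by linear_combination -e1
    exact (mul_ne_zero (mul_ne_zero hδ hv2) h) this

end Pool.Agent.P8H32.CT
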