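import Pool.Agent.P8H32.CT.Per

/-!
The real curve contains no line and does not enter the domain enclosed by an oval.
-/

set_option autoImplicit false

namespace Pool.Agent.P8H32.CT

open Polynomial ComplexConjugate

/-- `s` as a function of `ζ`, where `w = conj ζ` -/
noncomputable def sfun (σ0 σ1 : ℂ) (ζ : ℂ) : ℂ := conj ζ + (σ0 + σ1 * ζ)

/-- the value of the polynomial `F` in `z`, `s` at the point `ζ` of the real plane -/
noncomputable def EE (σ0 σ1 : ℂ) (F : RR) (ζ : ℂ) : ℂ := MvPolynomial.eval ![ζ, sfun σ0 σ1 ζ] F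

/-- A root `s = S(z)` of the cubic which is a polynomial makes the discriminant a multiple of a
square. -/
lemma no_poly_root {p q : ℂ[X]} (hp : p.natDegree ≤ 2) (h6 : (del p q).natDegree = 6)
    (hcop : IsCoprime (del p q) (derivative (del p q))) (S : ℂ[X]) (hS : S.natDegree ≤ 1)
    (h : S ^ 3 + p * S + q = 0) : False := by
  have hq : q = -(S ^ 3 + p * S) := by linear_combination h
  have h1 : del p q = (3 * S ^ 2 + p) ^ 2 * (3 * S ^ 2 + 4 * p) := by
    rw [del, hq]; ring
  have h2 : IsUnit (3 * S ^ 2 + p) := by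
    apply hcop.isUnit_of_dvd'
    · rw [h1]
      exact (dvd_pow_self _ two_ne_zero).mul_right _
    · rw [h1, derivative_mul, derivative_pow]
      refine dvd_add ?_ ?_
      · refine Dvd.intro (C ((2 : ℕ) : ℂ) * derivative (3 * S ^ 2 + p) * (3 * S ^ 2 + 4 * p)) ?_
        rw [show 2 - 1 = 1 from rfl, pow_one]
        ring
      · exact (dvd_pow_self _ two_ne_zero).mul_right _
  obtain ⟨c, hc, hc2⟩ := Polynomial.isUnit_iff.1 h2
  have h3 : p = C c - 3 * S ^ 2 := by rw [hc2]; ring
  have h4 : del p q = C (c ^ 2) * (C (4 * c) - 9 * S ^ 2) := by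
    rw [h1, ← hc2, h3]
    simp only [C_mul, C_pow, C_ofNat]
    ring
  have h5 : (C (c ^ 2) * (C (4 * c) - 9 * S ^ 2)).natDegree ≤ 2 := by
    refine (natDegree_C_mul_le _ _).trans ((natDegree_sub_le _ _).trans ?_)
    rw [natDegree_C]
    have h6 : (9 * S ^ 2).natDegree ≤ 2 := by
      have : (9 : ℂ[X]) = C 9 := by rw [C_ofNat]
      rw [this]
      refine (natDegree_C_mul_le _ _).trans (natDegree_pow_le.trans ?_)
      omega
    omega
  rw [← h4, h6] at h5
  omega

variable {p q : ℂ[X]} {σ0 σ1 : ℂ}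

/-- the restriction of a polynomial in `z`, `s` to a line -/
noncomputable def lineP (σ0 σ1 : ℂ) (F : RR) (ζ v : ℂ) : ℂ[X] :=
  MvPolynomial.aeval ![C ζ + C v * X, C (sfun σ0 σ1 ζ) + C (conj v + σ1 * v) * X] F

lemma lineP_eval (F : RR) (ζ v : ℂ) (t : ℝ) :
    (lineP σ0 σ1 F ζ v).eval (t : ℂ) = EE σ0 σ1 F (ζ + t * v) := by
  rw [lineP, EE]
  rw [← Polynomial.coe_evalRingHom, MvPolynomial.aeval_def, ← MvPolynomial.eval₂_id (R := ℂ)]
  rw [MvPolynomial.hom_eval₂]
  have h1 : (Polynomial.evalRingHom (t : ℂ)).comp (algebraMap ℂ ℂ[X]) = RingHom.id ℂ := by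
    ext x <;> simp
  rw [h1]
  congr 1
  funext i
  fin_cases i
  · simp; ring
  · simp [sfun]; ring

lemma lineP_ne_zero (hp : p.natDegree ≤ 2) (h6 : (del p q).natDegree = 6)
    (hcop : IsCoprime (del p q) (derivative (del p q))) (ζ v : ℂ) (hv : v ≠ 0) :
    lineP σ0 σ1 (PP p q) ζ v ≠ 0 := by
  intro h
  set L : ℂ[X] := C v⁻¹ * (X - C ζ) with hL
  set S : ℂ[X] := C (sfun σ0 σ1 ζ) + C (conj v + σ1 * v) * L with hS
  have h1 : (lineP σ0 σ1 (PP p q) ζ v).comp L = S ^ 3 + p * S + q := by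
    have h2 : C ζ + C v * L = X := by
      rw [hL, ← mul_assoc, ← C_mul, mul_inv_cancel₀ hv, C_1]
      ring
    rw [lineP, PP]
    simp only [map_add, map_mul, map_pow, MvPolynomial.aeval_X, Matrix.cons_val_one,
      Matrix.cons_val_fin_one]
    simp only [Polynomial.add_comp, Polynomial.mul_comp, Polynomial.pow_comp, C_comp, X_comp]
    have h3 : ∀ f : ℂ[X], (MvPolynomial.aeval ![C ζ + C v * X,
        C (sfun σ0 σ1 ζ) + C (conj v + σ1 * v) * X] (toR f)).comp L = f := by
      intro f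
      have h4 : (MvPolynomial.aeval ![C ζ + C v * X,
          C (sfun σ0 σ1 ζ) + C (conj v + σ1 * v) * X] (toR f)) =
          Polynomial.aeval (C ζ + C v * X) f := by
        rw [← Polynomial.aeval_algHom_apply, MvPolynomial.aeval_X]
        simp
      rw [h4]
      have h5 : (Polynomial.aeval (C ζ + C v * X : ℂ[X]) f) = f.comp (C ζ + C v * X) := by
        rw [Polynomial.comp, Polynomial.aeval_def]; rfl
      rw [h5, Polynomial.comp_assoc]
      simp only [Polynomial.add_comp, Polynomial.mul_comp, C_comp, X_comp]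
      rw [h2, Polynomial.comp_X]
    simp only [map_add, map_mul] at h3
    rw [h3, h3, hS]
    simp only [C_add, C_mul]
  rw [h, Polynomial.zero_comp] at h1
  refine no_poly_root hp h6 hcop S ?_ h1.symm
  rw [hS, hL]
  compute_degree

end Pool.Agent.P8H32.CT
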