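import Pool.Agent.P8H32.CT.Line

/-!
The normal form of a generic real cubic.
-/

set_option autoImplicit false

namespace Pool.Agent.P8H32.CT

open Polynomial ComplexConjugate

/-- The value at the point `ζ = x + i y` of the real cubic polynomial with coefficient vector `a`,
the monomials being `x³, x²y, xy², y³, x², xy, y², x, y, 1` in this order. -/
noncomputable def cubic (a : Fin 10 → ℝ) (ζ : ℂ) : ℝ :=
  a 0 * ζ.re ^ 3 + a 1 * ζ.re ^ 2 * ζ.im + a 2 * ζ.re * ζ.im ^ 2 + a 3 * ζ.im ^ 3 +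
    a 4 * ζ.re ^ 2 + a 5 * ζ.re * ζ.im + a 6 * ζ.im ^ 2 + a 7 * ζ.re + a 8 * ζ.im + a 9

section coeffs

variable {K : Type*} [CommRing K] [Algebra ℂ K] (v : Fin 10 → K)

noncomputable def k0 : K := (1 / 8 : ℂ) • (v 0 + Complex.I • v 1 - v 2 - Complex.I • v 3)
noncomputable def k11 : K := (1 / 8 : ℂ) • ((3 : ℂ) • v 0 + Complex.I • v 1 + v 2 + (3 * Complex.I) • v 3)
noncomputable def k22 : K := (1 / 8 : ℂ) • ((3 : ℂ) • v 0 - Complex.I • v 1 + v 2 - (3 * Complex.I) • v 3)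
noncomputable def k33 : K := (1 / 8 : ℂ) • (v 0 - Complex.I • v 1 - v 2 + Complex.I • v 3)
noncomputable def k10 : K := (1 / 4 : ℂ) • (v 4 + Complex.I • v 5 - v 6)
noncomputable def k21 : K := (1 / 2 : ℂ) • (v 4 + v 6)
noncomputable def k32 : K := (1 / 4 : ℂ) • (v 4 - Complex.I • v 5 - v 6)
noncomputable def k20 : K := (1 / 2 : ℂ) • (v 7 + Complex.I • v 8)
noncomputable def k31 : K := (1 / 2 : ℂ) • (v 7 - Complex.I • v 8)
noncomputable def k30 : K := v 9

noncomputable def hA : K[X] := C (k10 v) + C (k11 v) * X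
noncomputable def hB : K[X] := C (k20 v) + C (k21 v) * X + C (k22 v) * X ^ 2
noncomputable def hC : K[X] := C (k30 v) + C (k31 v) * X + C (k32 v) * X ^ 2 + C (k33 v) * X ^ 3

noncomputable def hp : K[X] := 3 * C (k0 v) * hB v - hA v ^ 2
noncomputable def hq : K[X] := 27 * C (k0 v) ^ 2 * hC v - 9 * C (k0 v) * hA v * hB v + 2 * hA v ^ 3

/-- the discriminant of the cubic with respect to `w` -/
noncomputable def dl : K[X] := 4 * hp v ^ 3 + hq v ^ 2

lemma dl_map {L : Type*} [CommRing L] [Algebra ℂ L] (φ : K →ₐ[ℂ] L) :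
    (dl v).map (φ : K →+* L) = dl (fun i => φ (v i)) := by
  simp only [dl, hp, hq, hA, hB, hC, k0, k11, k22, k33, k10, k21, k32, k20, k31, k30,
    Polynomial.map_add, Polynomial.map_sub, Polynomial.map_mul, Polynomial.map_pow,
    Polynomial.map_C, Polynomial.map_X, Polynomial.map_ofNat, RingHom.coe_coe, map_smul, map_add,
    map_sub]

lemma hp_deg : (hp v).natDegree ≤ 2 := by
  rw [hp, hA, hB]
  compute_degree

lemma hq_deg : (hq v).natDegree ≤ 3 := by
  rw [hq, hA, hB, hC]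
  compute_degree

lemma dl_deg : (dl v).natDegree ≤ 6 := by
  rw [dl]
  have h1 := hp_deg v
  have h2 := hq_deg v
  have e1 : (4 * hp v ^ 3).natDegree ≤ 6 := by
    have : (4 : K[X]) = C 4 := by rw [C_ofNat]
    rw [this]
    refine (natDegree_C_mul_le _ _).trans (natDegree_pow_le.trans ?_)
    omega
  have e2 : (hq v ^ 2).natDegree ≤ 6 := natDegree_pow_le.trans (by omega)
  exact natDegree_add_le_of_degree_le e1 e2

end coeffs

/-- the generic obstruction -/
noncomputable def HH : MvPolynomial (Fin 10) ℂ :=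
  k0 MvPolynomial.X * (dl (K := MvPolynomial (Fin 10) ℂ) MvPolynomial.X).coeff 6 *
    resultant (dl (K := MvPolynomial (Fin 10) ℂ) MvPolynomial.X)
      (derivative (dl (K := MvPolynomial (Fin 10) ℂ) MvPolynomial.X)) 6 5

lemma HH_eval (v : Fin 10 → ℂ) : MvPolynomial.aeval v HH =
    k0 v * (dl v).coeff 6 * resultant (dl v) (derivative (dl v)) 6 5 := by
  have h1 : (dl (K := MvPolynomial (Fin 10) ℂ) MvPolynomial.X).map
      ((MvPolynomial.aeval v : MvPolynomial (Fin 10) ℂ →ₐ[ℂ] ℂ) : MvPolynomial (Fin 10) ℂ →+* ℂ) =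
      dl v := by
    rw [dl_map]
    congr 1
    funext i
    simp
  have h2 : MvPolynomial.aeval v (k0 (K := MvPolynomial (Fin 10) ℂ) MvPolynomial.X) = k0 v := by
    simp only [k0, map_smul, map_add, map_sub, MvPolynomial.aeval_X]
  have h3 : MvPolynomial.aeval v ((dl (K := MvPolynomial (Fin 10) ℂ) MvPolynomial.X).coeff 6) =
      (dl v).coeff 6 := by
    rw [← h1, coeff_map, RingHom.coe_coe]
  have h4 : MvPolynomial.aeval v (resultant (dl (K := MvPolynomial (Fin 10) ℂ) MvPolynomial.X)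
      (derivative (dl (K := MvPolynomial (Fin 10) ℂ) MvPolynomial.X)) 6 5) =
      resultant (dl v) (derivative (dl v)) 6 5 := by
    rw [← h1, derivative_map, resultant_map_map, RingHom.coe_coe]
  rw [HH, map_mul, map_mul, h2, h3, h4]

/-- the example with `p = z`, `q = z ^ 3 + 1` -/
noncomputable def aex : Fin 10 → ℝ := ![2, 0, -6, 0, 1, 0, 1, 0, 0, 1]

lemma dl_ex : dl (fun i => (aex i : ℂ)) = C 27 * (C 27 * X ^ 6 + C 58 * X ^ 3 + C 27) := by
  have e : (fun i => (aex i : ℂ)) = ![2, 0, -6, 0, 1, 0, 1, 0, 0, 1] := by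
    funext i
    fin_cases i <;> simp [aex]
  rw [e]
  have h0 : k0 (![2, 0, -6, 0, 1, 0, 1, 0, 0, 1] : Fin 10 → ℂ) = 1 := by
    simp [k0]; norm_num
  have h11 : k11 (![2, 0, -6, 0, 1, 0, 1, 0, 0, 1] : Fin 10 → ℂ) = 0 := by
    simp [k11]; norm_num
  have h22 : k22 (![2, 0, -6, 0, 1, 0, 1, 0, 0, 1] : Fin 10 → ℂ) = 0 := by
    simp [k22]; norm_num
  have h33 : k33 (![2, 0, -6, 0, 1, 0, 1, 0, 0, 1] : Fin 10 → ℂ) = 1 := by
    simp [k33]; norm_num
  have h10 : k10 (![2, 0, -6, 0, 1, 0, 1, 0, 0, 1] : Fin 10 → ℂ) = 0 := by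
    simp [k10]
  have h21 : k21 (![2, 0, -6, 0, 1, 0, 1, 0, 0, 1] : Fin 10 → ℂ) = 1 := by
    simp [k21]; norm_num
  have h32 : k32 (![2, 0, -6, 0, 1, 0, 1, 0, 0, 1] : Fin 10 → ℂ) = 0 := by
    simp [k32]
  have h20 : k20 (![2, 0, -6, 0, 1, 0, 1, 0, 0, 1] : Fin 10 → ℂ) = 0 := by
    simp [k20]
  have h31 : k31 (![2, 0, -6, 0, 1, 0, 1, 0, 0, 1] : Fin 10 → ℂ) = 0 := by
    simp [k31]
  have h30 : k30 (![2, 0, -6, 0, 1, 0, 1, 0, 0, 1] : Fin 10 → ℂ) = 1 := by
    simp [k30]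
  rw [dl, hp, hq, hA, hB, hC, h0, h11, h22, h33, h10, h21, h32, h20, h31, h30]
  simp only [C_1, C_0, C_ofNat]
  ring

lemma HH_ex : MvPolynomial.aeval (fun i => (aex i : ℂ)) HH ≠ 0 := by
  rw [HH_eval]
  have hd := dl_ex
  set D := dl (fun i => (aex i : ℂ)) with hD
  have hdeg : D.natDegree = 6 := by
    rw [hd]
    compute_degree!
  have hder : derivative D = C 27 * (C 162 * X ^ 5 + C 174 * X ^ 2) := by
    rw [hd]
    simp only [derivative_add, derivative_mul, derivative_C, derivative_X_pow]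
    simp only [C_ofNat, Nat.cast_ofNat]
    ring
  have hdeg2 : (derivative D).natDegree = 5 := by
    rw [hder]
    compute_degree!
  have hcop : IsCoprime D (derivative D) := by
    refine ⟨C (1 / 27 / 27) * (1 + C (1 / 112) * (27 * X ^ 2) * (58 * X + 27 * X ^ 4)),
      -(C (1 / 27 / 27 / 112 / 6) * (58 * X + 27 * X ^ 4) * (27 * X ^ 3 + 29)), ?_⟩
    rw [hder, hd]
    apply Polynomial.funext
    intro r
    simp only [eval_add, eval_mul, eval_pow, eval_X, eval_C, eval_one, eval_ofNat, eval_neg]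
    ring
  have h1 : resultant D (derivative D) 6 5 ≠ 0 := by
    have h := resultant_ne_zero D (derivative D) hcop
    rw [hdeg, hdeg2] at h
    exact h
  have h2 : D.coeff 6 ≠ 0 := by
    rw [← hdeg, coeff_natDegree]
    intro h0
    rw [leadingCoeff_eq_zero] at h0
    rw [h0] at hdeg
    simp at hdeg
  have h3 : k0 (fun i => (aex i : ℂ)) ≠ 0 := by
    have : k0 (fun i => (aex i : ℂ)) = 1 := by
      simp [k0, aex]
      norm_num
    rw [this]
    exact one_ne_zero
  exact mul_ne_zero (mul_ne_zero h3 h2) h1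

/-- Real and imaginary parts of a polynomial on real arguments. -/
lemma exists_re_im (H : MvPolynomial (Fin 10) ℂ) : ∃ H1 H2 : MvPolynomial (Fin 10) ℝ,
    ∀ a : Fin 10 → ℝ, MvPolynomial.aeval (fun i => (a i : ℂ)) H =
      (MvPolynomial.eval a H1 : ℂ) + (MvPolynomial.eval a H2 : ℂ) * Complex.I := by
  induction H using MvPolynomial.induction_on with
  | C c =>
    refine ⟨MvPolynomial.C c.re, MvPolynomial.C c.im, fun a => ?_⟩
    simp
  | add F G hF hG =>
    obtain ⟨F1, F2, hF⟩ := hF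
    obtain ⟨G1, G2, hG⟩ := hG
    refine ⟨F1 + G1, F2 + G2, fun a => ?_⟩
    rw [map_add, hF, hG, map_add, map_add]
    push_cast
    ring
  | mul_X F i hF =>
    obtain ⟨F1, F2, hF⟩ := hF
    refine ⟨F1 * MvPolynomial.X i, F2 * MvPolynomial.X i, fun a => ?_⟩
    rw [map_mul, hF, map_mul, map_mul, MvPolynomial.aeval_X, MvPolynomial.eval_X]
    push_cast
    ring

/-- **The exceptional set is a proper real-algebraic subset.** -/
lemma exists_generic : ∃ G : MvPolynomial (Fin 10) ℝ, G ≠ 0 ∧ ∀ a : Fin 10 → ℝ,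
    MvPolynomial.eval a G ≠ 0 → MvPolynomial.aeval (fun i => (a i : ℂ)) HH ≠ 0 := by
  obtain ⟨H1, H2, h⟩ := exists_re_im HH
  refine ⟨H1 ^ 2 + H2 ^ 2, ?_, ?_⟩
  · intro h0
    have h1 := congrArg (MvPolynomial.eval aex) h0
    rw [map_add, map_pow, map_pow, map_zero] at h1
    have h2 : MvPolynomial.eval aex H1 = 0 := by
      nlinarith [sq_nonneg (MvPolynomial.eval aex H1), sq_nonneg (MvPolynomial.eval aex H2)]
    have h3 : MvPolynomial.eval aex H2 = 0 := by
      nlinarith [sq_nonneg (MvPolynomial.eval aex H1), sq_nonneg (MvPolynomial.eval aex H2)]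
    apply HH_ex
    rw [h, h2, h3]
    simp
  · intro a ha h0
    apply ha
    rw [h] at h0
    have h1 := congrArg Complex.re h0
    have h2 := congrArg Complex.im h0
    simp at h1 h2
    rw [map_add, map_pow, map_pow, h1, h2]
    simp

lemma EE_toR (σ0 σ1 : ℂ) (f : ℂ[X]) (ζ : ℂ) : EE σ0 σ1 (toR f) ζ = f.eval ζ := by
  unfold EE
  induction f using Polynomial.induction_on' with
  | add p q hp hq => rw [map_add, map_add, hp, hq, eval_add]
  | monomial n c =>
    simp [Polynomial.aeval_monomial]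

/-- the real cubic in the coordinates `z`, `w` -/
lemma cubic_eq (a : Fin 10 → ℝ) (ζ : ℂ) : (cubic a ζ : ℂ) =
    k0 (fun i => (a i : ℂ)) * conj ζ ^ 3 + (hA (fun i => (a i : ℂ))).eval ζ * conj ζ ^ 2 +
      (hB (fun i => (a i : ℂ))).eval ζ * conj ζ + (hC (fun i => (a i : ℂ))).eval ζ := by
  have hx : (ζ.re : ℂ) = (ζ + conj ζ) / 2 := Complex.re_eq_add_conj ζ
  have hy : (ζ.im : ℂ) = -Complex.I * (ζ - conj ζ) / 2 := by
    rw [Complex.im_eq_sub_conj]
    field_simp
    linear_combination (ζ - conj ζ) * Complex.I_sq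
  unfold cubic
  push_cast
  rw [hx, hy]
  simp only [hA, hB, hC, k0, k11, k22, k33, k10, k21, k32, k20, k31, k30, eval_add, eval_mul,
    eval_pow, eval_X, eval_C, smul_eq_mul]
  generalize conj ζ = w
  generalize ζ = z
  linear_combination ((a 2 : ℂ) * (z + w) * (z - w) ^ 2 / 8 -
    (a 3 : ℂ) * Complex.I * (z - w) ^ 3 / 8 + (a 6 : ℂ) * (z - w) ^ 2 / 4) * Complex.I_sq

/-- **The normal form.** -/
lemma normal_form (a : Fin 10 → ℝ) (ha : MvPolynomial.aeval (fun i => (a i : ℂ)) HH ≠ 0) :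
    ∃ (p q : ℂ[X]) (σ0 σ1 κ : ℂ), p.natDegree ≤ 2 ∧ q.natDegree ≤ 3 ∧ (del p q).natDegree = 6 ∧
      IsCoprime (del p q) (derivative (del p q)) ∧ κ ≠ 0 ∧
      ∀ ζ, (cubic a ζ : ℂ) = κ * EE σ0 σ1 (PP p q) ζ := by
  rw [HH_eval] at ha
  set v : Fin 10 → ℂ := fun i => (a i : ℂ) with hv
  set c := k0 v with hc
  have hc0 : c ≠ 0 := by
    intro h
    rw [h] at ha
    simp at ha
  have h6 : (dl v).coeff 6 ≠ 0 := by
    intro h
    rw [h] at ha
    simp at ha
  have hres : resultant (dl v) (derivative (dl v)) 6 5 ≠ 0 := by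
    intro h
    rw [h] at ha
    simp at ha
  have hdeg : (dl v).natDegree = 6 := natDegree_eq_of_le_of_coeff_ne_zero (dl_deg v) h6
  have hcop : IsCoprime (dl v) (derivative (dl v)) := by
    obtain ⟨P, Q, -, -, hPQ⟩ := exists_mul_add_mul_eq_C_resultant (dl v) (derivative (dl v))
      (m := 6) (n := 5) (dl_deg v) ((natDegree_derivative_le _).trans (by rw [hdeg])) (by norm_num)
    refine ⟨C (resultant (dl v) (derivative (dl v)) 6 5)⁻¹ * P,
      C (resultant (dl v) (derivative (dl v)) 6 5)⁻¹ * Q, ?_⟩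
    have h1 : C (resultant (dl v) (derivative (dl v)) 6 5)⁻¹ *
        C (resultant (dl v) (derivative (dl v)) 6 5) = 1 := by
      rw [← C_mul, inv_mul_cancel₀ hres, C_1]
    linear_combination C (resultant (dl v) (derivative (dl v)) 6 5)⁻¹ * hPQ + h1
  have hdel : del (C (1 / (3 * c ^ 2)) * hp v) (C (1 / (27 * c ^ 3)) * hq v) =
      C (1 / (27 * c ^ 6)) * dl v := by
    rw [del, dl]
    apply Polynomial.funext
    intro r
    simp only [eval_add, eval_mul, eval_pow, eval_C, eval_ofNat]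
    field_simp
    ring
  have hu : IsUnit (C (1 / (27 * c ^ 6)) : ℂ[X]) := by
    rw [isUnit_C, isUnit_iff_ne_zero]
    exact one_div_ne_zero (mul_ne_zero (by norm_num) (pow_ne_zero 6 hc0))
  refine ⟨C (1 / (3 * c ^ 2)) * hp v, C (1 / (27 * c ^ 3)) * hq v, k10 v / (3 * c),
    k11 v / (3 * c), c, (natDegree_C_mul_le _ _).trans (hp_deg v),
    (natDegree_C_mul_le _ _).trans (hq_deg v), ?_, ?_, hc0, ?_⟩
  · rw [hdel, natDegree_C_mul (isUnit_C.1 hu).ne_zero, hdeg]
  · rw [hdel, derivative_C_mul]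
    exact (isCoprime_mul_unit_left hu _ _).2 hcop
  · intro ζ
    rw [cubic_eq, ← hv, ← hc]
    rw [PP, EE, map_add, map_add, map_mul, map_pow]
    have e1 := EE_toR (k10 v / (3 * c)) (k11 v / (3 * c)) (C (1 / (3 * c ^ 2)) * hp v) ζ
    have e2 := EE_toR (k10 v / (3 * c)) (k11 v / (3 * c)) (C (1 / (27 * c ^ 3)) * hq v) ζ
    unfold EE at e1 e2
    rw [e1, e2, MvPolynomial.eval_X]
    simp only [sfun, hp, hq, eval_add, eval_sub, eval_mul, eval_pow, eval_C, eval_ofNat,
      Matrix.cons_val_one, Matrix.cons_val_fin_one]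
    rw [← hc]
    have e3 : (hA v).eval ζ = k10 v + k11 v * ζ := by simp [hA]
    rw [e3]
    field_simp
    ring

end Pool.Agent.P8H32.CT
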