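import Pool.Agent.P8H32.CT.Pos
import Pool.Agent.P8H32.CT.Cau
import Pool.Agent.P8H32.CT.Norm

/-!
Assembly: the Cauchy transform of a domain enclosed by an oval of a generic real cubic is
transcendental.
-/

set_option autoImplicit false

namespace Pool.Agent.P8H32.CT

open Polynomial Filter Topology MeasureTheory Set

/-- The boundary of a component of an open set is contained in the complement of the open set. -/
lemma frontier_component {F : Set ℂ} (hF : IsOpen F) (z : ℂ) :
    frontier (connectedComponentIn F z) ⊆ Fᶜ := by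
  intro ζ hζ hζF
  have ho : IsOpen (connectedComponentIn F z) := hF.connectedComponentIn
  have ho2 : IsOpen (connectedComponentIn F ζ) := hF.connectedComponentIn
  rw [ho.frontier_eq] at hζ
  obtain ⟨y, hy1, hy2⟩ := mem_closure_iff.1 hζ.1 _ ho2 (mem_connectedComponentIn hζF)
  have e1 := connectedComponentIn_eq hy1
  have e2 := connectedComponentIn_eq hy2
  apply hζ.2
  rw [e2, ← e1]
  exact mem_connectedComponentIn hζF

lemma isPreconnected_exterior (R : ℝ) (hR : 0 < R) : IsPreconnected {z : ℂ | R < ‖z‖} := by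
  have h : {z : ℂ | R < ‖z‖} = (fun p : ℝ × ℝ => (p.1 : ℂ) * Complex.exp (p.2 * Complex.I)) ''
      (Ioi R ×ˢ univ) := by
    ext z
    constructor
    · intro hz
      refine ⟨(‖z‖, Complex.arg z), ⟨hz, mem_univ _⟩, ?_⟩
      exact Complex.norm_mul_exp_arg_mul_I z
    · rintro ⟨⟨r, θ⟩, ⟨hr, -⟩, rfl⟩
      have hr' : R < r := hr
      change R < ‖(r : ℂ) * Complex.exp (θ * Complex.I)‖
      rw [norm_mul, Complex.norm_exp_ofReal_mul_I, mul_one, Complex.norm_real,
        Real.norm_of_nonneg (by linarith)]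
      exact hr'
  rw [h]
  apply (isPreconnected_Ioi.prod isPreconnected_univ).image
  fun_prop

lemma not_bounded_exterior (R : ℝ) (hR : 0 < R) : ¬ Bornology.IsBounded {z : ℂ | R < ‖z‖} := by
  intro h
  obtain ⟨K, hK⟩ := isBounded_iff_forall_norm_le.1 h
  have h1 : ‖((|K| + R + 1 : ℝ) : ℂ)‖ = |K| + R + 1 := by
    rw [Complex.norm_real, Real.norm_of_nonneg (by positivity)]
  have h2 := hK ((|K| + R + 1 : ℝ) : ℂ) (by
    change R < ‖((|K| + R + 1 : ℝ) : ℂ)‖
    rw [h1]
    linarith [abs_nonneg K])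
  rw [h1] at h2
  linarith [le_abs_self K]

theorem main : ∃ G : MvPolynomial (Fin 10) ℝ, G ≠ 0 ∧
    ∀ a : Fin 10 → ℝ, MvPolynomial.eval a G ≠ 0 →
      ∀ (Γ : Set ℂ), IsCompact Γ → Γ ⊆ {ζ | cubic a ζ = 0} →
        ∀ ζ1 ∈ Γᶜ, Bornology.IsBounded (connectedComponentIn Γᶜ ζ1) →
          ¬ ∃ Q : ℂ[X][X], Q ≠ 0 ∧
            ∀ z ∈ (closure (connectedComponentIn Γᶜ ζ1))ᶜ, ¬ Bornology.IsBounded
              (connectedComponentIn (closure (connectedComponentIn Γᶜ ζ1))ᶜ z) →
                Q.evalEval z (cauchyT (connectedComponentIn Γᶜ ζ1) z) = 0 := by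
  obtain ⟨G, hG, hGa⟩ := exists_generic
  refine ⟨G, hG, fun a ha Γ hΓ hΓ0 ζ1 hζ1 hbd => ?_⟩
  obtain ⟨p, q, σ0, σ1, κ, hp, hq, h6, hcop, hκ, heq⟩ := normal_form a (hGa a ha)
  rintro ⟨Q, hQ, hQ0⟩
  have hF : IsOpen Γᶜ := hΓ.isClosed.isOpen_compl
  set Ω := connectedComponentIn Γᶜ ζ1 with hΩ
  obtain ⟨R, hR0, hR⟩ : ∃ R : ℝ, 0 < R ∧ Ω ⊆ Metric.ball 0 R := by
    obtain ⟨R, hR⟩ := hbd.subset_ball (0 : ℂ)
    refine ⟨max R 1, by positivity, hR.trans (Metric.ball_subset_ball (le_max_left _ _))⟩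
  have D : Dom p q σ0 σ1 κ Ω R :=
    { hp := hp
      hq := hq
      h6 := h6
      hcop := hcop
      hκ := hκ
      hreal := fun ζ => by rw [← heq]; exact Complex.ofReal_im _
      hopen := hF.connectedComponentIn
      hR := hR0
      hΩR := hR
      hconn := isPreconnected_connectedComponentIn
      hne := ⟨ζ1, mem_connectedComponentIn hζ1⟩
      hfr := by
        intro ζ hζ
        have h1 : ζ ∈ Γ := by
          have := frontier_component hF ζ1 hζ
          rwa [compl_compl] at this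
        have h2 : cubic a ζ = 0 := hΓ0 h1
        have h3 := heq ζ
        rw [h2, Complex.ofReal_zero] at h3
        exact (mul_eq_zero.1 h3.symm).resolve_left hκ }
  have hcl : closure Ω ⊆ Metric.closedBall 0 R :=
    (closure_mono hR).trans Metric.closure_ball_subset_closedBall
  have hsub : {z : ℂ | R < ‖z‖} ⊆ (closure Ω)ᶜ := by
    intro z hz hzc
    have h1 := hcl hzc
    rw [mem_closedBall_zero_iff] at h1
    exact absurd h1 (not_le.2 hz)
  have hext : ∀ z : ℂ, R < ‖z‖ → Q.evalEval z (cauchyT Ω z) = 0 := by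
    intro z hz
    apply hQ0 z (hsub hz)
    intro hb
    apply not_bounded_exterior R hR0
    exact hb.subset ((isPreconnected_exterior R hR0).subset_connectedComponentIn hz hsub)
  have hrel := cauchy_rel hR0 hR D.hopen.measurableSet (D.areaF ∘ₗ toR.toLinearMap) (by
    intro k
    change (1 / (Real.pi : ℂ)) * ∫ ζ in Ω, EE σ0 σ1 (toR (X ^ k)) ζ = _
    simp only [EE_toR, eval_pow, eval_X])
  refine D.transcendental (algebraic_of_rel hrel hQ ?_)
  have hnh : Metric.ball (0 : ℂ) (1 / R) ∈ 𝓝[≠] (0 : ℂ) :=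
    nhdsWithin_le_nhds (Metric.ball_mem_nhds 0 (by positivity))
  filter_upwards [hnh, self_mem_nhdsWithin] with t ht ht0
  have ht0' : t ≠ 0 := ht0
  rw [mem_ball_zero_iff] at ht
  apply hext
  rw [norm_inv]
  rw [lt_inv_comm₀ hR0 (norm_pos_iff.2 ht0')]
  simpa using ht

end Pool.Agent.P8H32.CT
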