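import Pool.Agent.P8H32.CT.Core

/-!
Periods as values of a linear functional on polynomials in `z`, `s`.
-/

set_option autoImplicit false

namespace Pool.Agent.P8H32.CT

open Polynomial

/-- The series `∑ λ(z ^ k) Z ^ (-k-1)`. -/
noncomputable def ser (lam : ℂ[X] →ₗ[ℂ] ℂ) : LS :=
  HahnSeries.ofSuppBddBelow (fun n : ℤ => if 0 < n then lam (X ^ (n - 1).toNat) else 0)
    ⟨0, fun n hn => by
      by_contra h
      rw [Function.mem_support] at hn
      apply hn
      rw [if_neg (by omega)]⟩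

lemma ser_cf (lam : ℂ[X] →ₗ[ℂ] ℂ) (n : ℤ) :
    cf (ser lam) n = if 0 < n then lam (X ^ (n - 1).toNat) else 0 := rfl

lemma exists_poly (x : LS) (h : ∀ n, 0 < n → cf x n = 0) : ∃ r : ℂ[X], ev r = x := by
  obtain ⟨N, hN⟩ := bdd_below x
  refine ⟨∑ i ∈ Finset.range (N.natAbs + 1), monomial i (cf x (-(i : ℤ))), ?_⟩
  apply ext'
  intro n
  rcases lt_or_ge 0 n with hn | hn
  · rw [ev_cf_pos _ _ hn, h n hn]
  · obtain ⟨m, rfl⟩ : ∃ m : ℕ, n = -(m : ℤ) := ⟨n.natAbs, by omega⟩
    rw [ev_cf_neg, finsetSum_coeff]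
    simp only [coeff_monomial]
    rw [Finset.sum_ite_eq' (Finset.range (N.natAbs + 1)) m]
    split_ifs with hm
    · rfl
    · rw [Finset.mem_range] at hm
      rw [hN _ (by omega)]

lemma ev_mul_ser (a : ℂ[X]) (lam mu : ℂ[X] →ₗ[ℂ] ℂ) (h : ∀ f, mu f = lam (a * f)) :
    ∃ r : ℂ[X], ev a * ser lam - ser mu = ev r := by
  obtain ⟨r, hr⟩ := exists_poly (ev a * ser lam - ser mu) (by
    intro n hn
    rw [cf_sub, ev_mul_cf, ser_cf, if_pos hn, h]
    have h1 : a * X ^ (n - 1).toNat = a.sum fun i c => c • X ^ (n + i - 1).toNat := by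
      conv_lhs => rw [← Polynomial.sum_C_mul_X_pow_eq a]
      rw [Polynomial.sum_def, Polynomial.sum_def, Finset.sum_mul]
      refine Finset.sum_congr rfl fun i _ => ?_
      rw [mul_assoc, ← pow_add, smul_eq_C_mul]
      congr 2
      omega
    rw [h1, Polynomial.sum_def, Polynomial.sum_def, map_sum, sub_eq_zero]
    refine Finset.sum_congr rfl fun i _ => ?_
    rw [ser_cf, if_pos (by omega), map_smul, smul_eq_mul])
  exact ⟨r, hr.symm⟩

lemma DZ_ser (lam mu : ℂ[X] →ₗ[ℂ] ℂ) (h : ∀ f, mu f = -lam (derivative f)) :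
    DZ (ser lam) = ser mu := by
  apply ext'
  intro n
  rw [DZ_cf, ser_cf, ser_cf]
  rcases lt_or_ge 1 n with hn | hn
  · rw [if_pos (by omega), if_pos (by omega), h, derivative_X_pow]
    have h1 : (C (((n - 1).toNat : ℕ) : ℂ) * X ^ ((n - 1).toNat - 1) : ℂ[X]) =
        (((n - 1 : ℤ) : ℂ)) • X ^ (n - 1 - 1).toNat := by
      rw [smul_eq_C_mul]
      congr 2
      · have : (((n - 1).toNat : ℤ)) = n - 1 := Int.toNat_of_nonneg (by omega)
        exact_mod_cast congrArg (Int.cast (R := ℂ)) this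
      · omega
    rw [h1, map_smul, smul_eq_mul]
    ring
  · rw [if_neg (by omega), mul_zero]
    split_ifs with h0
    · have : n = 1 := by omega
      subst this
      rw [h]
      simp
    · rfl

/-- Polynomials in `z = X 0` and `s = X 1`. -/
abbrev RR := MvPolynomial (Fin 2) ℂ

noncomputable abbrev toR : ℂ[X] →ₐ[ℂ] RR := Polynomial.aeval (MvPolynomial.X 0 : RR)

noncomputable abbrev sS : RR := MvPolynomial.X 1

lemma pd0_toR (f : ℂ[X]) : MvPolynomial.pderiv 0 (toR f) = toR (derivative f) := by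
  rw [Derivation.map_aeval, MvPolynomial.pderiv_X_self, smul_eq_mul, mul_one]

lemma pd1_toR (f : ℂ[X]) : MvPolynomial.pderiv 1 (toR f) = 0 := by
  rw [Derivation.map_aeval, MvPolynomial.pderiv_X_of_ne (by decide), smul_zero]

lemma pd0_s : MvPolynomial.pderiv 0 sS = (0 : RR) := MvPolynomial.pderiv_X_of_ne (by decide)

lemma pd1_s : MvPolynomial.pderiv 1 sS = (1 : RR) := MvPolynomial.pderiv_X_self _

/-- the cubic in normal form -/
noncomputable def PP (p q : ℂ[X]) : RR := sS ^ 3 + toR p * sS + toR q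
noncomputable def Pz (p q : ℂ[X]) : RR := toR (derivative p) * sS + toR (derivative q)
noncomputable def Ps (p : ℂ[X]) : RR := 3 * sS ^ 2 + toR p

lemma pd_two (i : Fin 2) : MvPolynomial.pderiv i (2 : RR) = 0 := by
  have h := Derivation.map_natCast (MvPolynomial.pderiv i : Derivation ℂ RR RR) 2
  exact_mod_cast h

lemma pd_three (i : Fin 2) : MvPolynomial.pderiv i (3 : RR) = 0 := by
  have h := Derivation.map_natCast (MvPolynomial.pderiv i : Derivation ℂ RR RR) 3
  exact_mod_cast h

lemma pd0_PP (p q : ℂ[X]) : MvPolynomial.pderiv 0 (PP p q) = Pz p q := by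
  rw [PP, Pz]
  simp only [map_add, Derivation.leibniz, Derivation.leibniz_pow, pd0_toR, pd0_s, smul_eq_mul,
    mul_zero, smul_zero]
  ring

lemma pd1_PP (p q : ℂ[X]) : MvPolynomial.pderiv 1 (PP p q) = Ps p := by
  rw [PP, Ps]
  simp only [map_add, Derivation.leibniz, Derivation.leibniz_pow, pd1_toR, pd1_s, smul_eq_mul,
    mul_zero, mul_one, nsmul_eq_mul, add_zero]
  push_cast
  ring

lemma pd_comm (F : RR) : MvPolynomial.pderiv 0 (MvPolynomial.pderiv 1 F) =
    MvPolynomial.pderiv 1 (MvPolynomial.pderiv 0 F) := by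
  have h : ⁅(MvPolynomial.pderiv 0 : Derivation ℂ RR RR), (MvPolynomial.pderiv 1 : Derivation ℂ RR RR)⁆ = 0 := by
    apply MvPolynomial.derivation_ext
    intro i
    rw [Derivation.commutator_apply]
    fin_cases i <;> simp [MvPolynomial.pderiv_X]
  have h2 := congrArg (fun d : Derivation ℂ RR RR => d F) h
  simp only [Derivation.commutator_apply, Derivation.coe_zero, Pi.zero_apply] at h2
  exact sub_eq_zero.1 h2

/-- the Bezout coefficients of `P`, `P_z`, `P_s` -/
noncomputable def bA (p q U V : ℂ[X]) : RR :=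
  toR U * (27 * toR q - 18 * toR p * sS) + toR V * (54 * toR (derivative q))
noncomputable def bB (V : ℂ[X]) : RR := toR V * (108 * sS ^ 3)
noncomputable def bC (p q U V : ℂ[X]) : RR :=
  toR U * (4 * toR p ^ 2 - 9 * toR q * sS + 6 * toR p * sS ^ 2) +
    toR V * (12 * toR (derivative p) * (Ps p - 6 * sS ^ 2) - 54 * sS * toR (derivative q))

lemma bezout {p q U V : ℂ[X]} (h : U * del p q + V * derivative (del p q) = 1) :
    bA p q U V * PP p q + bB V * Pz p q + bC p q U V * Ps p = 1 := by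
  have h1 := congrArg toR h
  rw [der_del, del] at h1
  simp only [map_add, map_mul, map_pow, map_ofNat, map_one] at h1
  rw [bA, bB, bC, PP, Pz, Ps, ← h1]
  ring

section

variable {p q U V : ℂ[X]} (A : RR →ₗ[ℂ] ℂ)

/-- the period functional -/
noncomputable def per (p q U V : ℂ[X]) : RR →ₗ[ℂ] ℂ :=
  A ∘ₗ ((MvPolynomial.pderiv 0 : Derivation ℂ RR RR).toLinearMap ∘ₗ
      (LinearMap.mulRight ℂ (bB V)) +
    (MvPolynomial.pderiv 1 : Derivation ℂ RR RR).toLinearMap ∘ₗ
      (LinearMap.mulRight ℂ (bC p q U V)))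

lemma per_apply (F : RR) : per A p q U V F = A (MvPolynomial.pderiv 0 (F * bB V) +
    MvPolynomial.pderiv 1 (F * bC p q U V)) := rfl

variable (hA0 : ∀ F, A (MvPolynomial.pderiv 0 (F * PP p q)) = 0)
  (hA1 : ∀ F, A (MvPolynomial.pderiv 1 (F * PP p q)) = 0)
  (hUV : U * del p q + V * derivative (del p q) = 1)

include hA0 hA1

lemma per_P (F : RR) : per A p q U V (F * PP p q) = 0 := by
  rw [per_apply, map_add, show F * PP p q * bB V = F * bB V * PP p q by ring,
    show F * PP p q * bC p q U V = F * bC p q U V * PP p q by ring, hA0, hA1, add_zero]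

include hUV

lemma per_Ps (F : RR) : per A p q U V (F * Ps p) = A (MvPolynomial.pderiv 1 F) := by
  have hb := bezout hUV
  rw [per_apply]
  have h1 : F * Ps p * bC p q U V = F - F * bA p q U V * PP p q - F * bB V * Pz p q := by
    linear_combination F * hb
  rw [h1]
  set T := F * bB V with hT
  have h2 : MvPolynomial.pderiv 0 (F * Ps p * bB V) +
      MvPolynomial.pderiv 1 (F - F * bA p q U V * PP p q - T * Pz p q) =
      MvPolynomial.pderiv 1 F - MvPolynomial.pderiv 1 (F * bA p q U V * PP p q) +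
      (MvPolynomial.pderiv 1 (MvPolynomial.pderiv 0 T * PP p q) -
        MvPolynomial.pderiv 0 (MvPolynomial.pderiv 1 T * PP p q)) := by
    have h3 : F * Ps p * bB V = T * Ps p := by rw [hT]; ring
    rw [h3]
    simp only [map_sub]
    rw [Derivation.leibniz _ T (Ps p), Derivation.leibniz _ T (Pz p q),
      Derivation.leibniz _ (MvPolynomial.pderiv 0 T) (PP p q),
      Derivation.leibniz _ (MvPolynomial.pderiv 1 T) (PP p q), pd0_PP, pd1_PP,
      ← pd0_PP p q, ← pd1_PP p q, pd_comm (PP p q), pd_comm T]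
    simp only [smul_eq_mul]
    ring
  rw [h2]
  simp only [map_add, map_sub, hA0, hA1]
  ring

lemma per_Pz (F : RR) : per A p q U V (F * Pz p q) = A (MvPolynomial.pderiv 0 F) := by
  have hb := bezout hUV
  rw [per_apply]
  have h1 : F * Pz p q * bB V = F - F * bA p q U V * PP p q - F * bC p q U V * Ps p := by
    linear_combination F * hb
  rw [h1]
  set T := F * bC p q U V with hT
  have h2 : MvPolynomial.pderiv 0 (F - F * bA p q U V * PP p q - T * Ps p) +
      MvPolynomial.pderiv 1 (F * Pz p q * bC p q U V) =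
      MvPolynomial.pderiv 0 F - MvPolynomial.pderiv 0 (F * bA p q U V * PP p q) -
      (MvPolynomial.pderiv 1 (MvPolynomial.pderiv 0 T * PP p q) -
        MvPolynomial.pderiv 0 (MvPolynomial.pderiv 1 T * PP p q)) := by
    have h3 : F * Pz p q * bC p q U V = T * Pz p q := by rw [hT]; ring
    rw [h3]
    simp only [map_sub]
    rw [Derivation.leibniz _ T (Ps p), Derivation.leibniz _ T (Pz p q),
      Derivation.leibniz _ (MvPolynomial.pderiv 0 T) (PP p q),
      Derivation.leibniz _ (MvPolynomial.pderiv 1 T) (PP p q), pd0_PP, pd1_PP,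
      ← pd0_PP p q, ← pd1_PP p q, pd_comm (PP p q), pd_comm T]
    simp only [smul_eq_mul]
    ring
  rw [h2]
  simp only [map_add, map_sub, hA0, hA1]
  ring

lemma per_D (H : RR) : per A p q U V (MvPolynomial.pderiv 0 H * Ps p) =
    per A p q U V (MvPolynomial.pderiv 1 H * Pz p q) := by
  rw [per_Ps A hA0 hA1 hUV, per_Pz A hA0 hA1 hUV, pd_comm]

end

/-- the functional `f ↦ per (f F)` on polynomials in `z` -/
noncomputable def lamF (P : RR →ₗ[ℂ] ℂ) (F : RR) : ℂ[X] →ₗ[ℂ] ℂ :=
  P ∘ₗ (LinearMap.mulRight ℂ F) ∘ₗ toR.toLinearMap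

lemma lamF_apply (P : RR →ₗ[ℂ] ℂ) (F : RR) (f : ℂ[X]) : lamF P F f = P (toR f * F) := rfl

lemma ser_congr {lam mu : ℂ[X] →ₗ[ℂ] ℂ} (h : ∀ f, lam f = mu f) : ser lam = ser mu := by
  rw [LinearMap.ext h]

lemma ser_add (lam mu : ℂ[X] →ₗ[ℂ] ℂ) : ser (lam + mu) = ser lam + ser mu := by
  apply ext'
  intro n
  rw [cf_add, ser_cf, ser_cf, ser_cf]
  split_ifs <;> simp

/-- **Transcendence from the relations of Stokes' theorem.** -/
theorem per_main {p q U V : ℂ[X]} (hp : p.natDegree ≤ 2) (hq : q.natDegree ≤ 3)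
    (h6 : (del p q).natDegree = 6) (hUV : U * del p q + V * derivative (del p q) = 1)
    (A : RR →ₗ[ℂ] ℂ) (hA0 : ∀ F, A (MvPolynomial.pderiv 0 (F * PP p q)) = 0)
    (hA1 : ∀ F, A (MvPolynomial.pderiv 1 (F * PP p q)) = 0)
    (hne : A (MvPolynomial.pderiv 0 (bB V) + MvPolynomial.pderiv 1 (bC p q U V)) ≠ 0) :
    ¬ IsAlgebraic kZ (ser (A ∘ₗ toR.toLinearMap)) := by
  set P := per A p q U V with hP
  set Y0 := ser (lamF P 1) with hY0
  set Y1 := ser (lamF P sS) with hY1
  set C1 := ser (lamF P (sS * Ps p)) with hC1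
  set C2 := ser (lamF P ((3 * sS ^ 2 + 2 * toR p) * Ps p)) with hC2
  have hC : ser (A ∘ₗ toR.toLinearMap) = C1 := by
    apply ser_congr
    intro f
    rw [lamF_apply, ← mul_assoc, hP, per_Ps A hA0 hA1 hUV, Derivation.leibniz, pd1_toR, pd1_s]
    simp
  rw [hC]
  -- general relation
  have rel : ∀ (F : RR) (a b : ℂ[X]),
      (∀ f : ℂ[X], P (toR f * F) = P (toR f * (toR a + toR b * sS))) →
      ∃ r, ser (lamF P F) - ev a * Y0 - ev b * Y1 = ev r := by
    intro F a b h
    obtain ⟨ra, hra⟩ := ev_mul_ser a (lamF P 1) (lamF P (toR a)) (fun f => by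
      rw [lamF_apply, lamF_apply, map_mul toR]; congr 1; ring)
    obtain ⟨rb, hrb⟩ := ev_mul_ser b (lamF P sS) (lamF P (toR b * sS)) (fun f => by
      rw [lamF_apply, lamF_apply, map_mul toR]; congr 1; ring)
    have h1 : ser (lamF P F) = ser (lamF P (toR a)) + ser (lamF P (toR b * sS)) := by
      rw [← ser_add]
      apply ser_congr
      intro f
      rw [LinearMap.add_apply, lamF_apply, lamF_apply, lamF_apply, h, mul_add, map_add]
    refine ⟨-ra - rb, ?_⟩
    rw [h1, map_sub, map_neg, ← hra, ← hrb]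
    ring
  obtain ⟨r3, hr3⟩ := rel (sS * Ps p) (-(3 * q)) (-(2 * p)) (by
    intro f
    have : toR f * (sS * Ps p) = toR f * (toR (-(3 * q)) + toR (-(2 * p)) * sS) +
        3 * toR f * PP p q := by
      rw [Ps, PP]; simp only [map_neg, map_mul, map_ofNat]; ring
    rw [this, map_add, hP, per_P A hA0 hA1, add_zero])
  obtain ⟨r5, hr5⟩ := rel ((3 * sS ^ 2 + 2 * toR p) * Ps p) (2 * p ^ 2) (-(9 * q)) (by
    intro f
    have : toR f * ((3 * sS ^ 2 + 2 * toR p) * Ps p) =
        toR f * (toR (2 * p ^ 2) + toR (-(9 * q)) * sS) + 9 * sS * toR f * PP p q := by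
      rw [Ps, PP]; simp only [map_neg, map_mul, map_pow, map_ofNat]; ring
    rw [this, map_add, hP, per_P A hA0 hA1, add_zero])
  -- derivatives
  have hDC1 : DZ C1 = ser (lamF P (-Pz p q)) := by
    apply DZ_ser
    intro f
    rw [lamF_apply, lamF_apply]
    have h := per_D A hA0 hA1 hUV (toR f * sS)
    rw [Derivation.leibniz, Derivation.leibniz, pd0_toR, pd1_toR, pd0_s, pd1_s] at h
    simp only [smul_eq_mul, mul_zero, zero_add, mul_one, add_zero] at h
    rw [show toR f * -Pz p q = -(toR f * Pz p q) by ring, map_neg, hP, ← h]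
    congr 2
    ring
  have hDC2 : DZ C2 = ser (lamF P (2 * toR (derivative p) * Ps p - 6 * sS * Pz p q)) := by
    apply DZ_ser
    intro f
    rw [lamF_apply, lamF_apply]
    have h := per_D A hA0 hA1 hUV (toR f * (3 * sS ^ 2 + 2 * toR p))
    have e0 : MvPolynomial.pderiv 0 (toR f * (3 * sS ^ 2 + 2 * toR p)) =
        toR (derivative f) * (3 * sS ^ 2 + 2 * toR p) + 2 * toR f * toR (derivative p) := by
      simp only [Derivation.leibniz, map_add, Derivation.leibniz_pow, pd0_toR, pd0_s,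
        pd_two, pd_three, smul_eq_mul, mul_zero, smul_zero, zero_add, add_zero]
      ring
    have e1 : MvPolynomial.pderiv 1 (toR f * (3 * sS ^ 2 + 2 * toR p)) = toR f * (6 * sS) := by
      simp only [Derivation.leibniz, map_add, Derivation.leibniz_pow, pd1_toR, pd1_s,
        pd_two, pd_three, smul_eq_mul, mul_zero, zero_add, add_zero, mul_one, nsmul_eq_mul]
      push_cast
      ring
    rw [e0, e1] at h
    have h2 : toR f * (2 * toR (derivative p) * Ps p - 6 * sS * Pz p q) =
        (toR (derivative f) * (3 * sS ^ 2 + 2 * toR p) + 2 * toR f * toR (derivative p)) * Ps p -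
          toR f * (6 * sS) * Pz p q -
          toR (derivative f) * ((3 * sS ^ 2 + 2 * toR p) * Ps p) := by ring
    rw [h2, map_sub, map_sub, hP, h, sub_self, zero_sub]
  obtain ⟨r4, hr4⟩ := rel (-Pz p q) (-derivative q) (-derivative p) (by
    intro f
    congr 2
    rw [Pz, map_neg, map_neg]
    ring)
  obtain ⟨r6, hr6⟩ := rel (2 * toR (derivative p) * Ps p - 6 * sS * Pz p q)
    (2 * p * derivative p) (-(6 * derivative q)) (by
    intro f
    congr 2
    rw [Pz, Ps]
    simp only [map_neg, map_mul, map_ofNat]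
    ring)
  rw [← hDC1] at hr4
  rw [← hDC2] at hr6
  rw [← hC1] at hr3
  rw [← hC2] at hr5
  have d3 := congrArg DZ hr3
  have d5 := congrArg DZ hr5
  simp only [map_sub, Derivation.leibniz, DZ_ev, smul_eq_mul] at d3 d5
  have dq : derivative (-(3 * q)) = -(3 * derivative q) := by
    rw [derivative_neg, derivative_mul]; simp
  have dp : derivative (-(2 * p)) = -(2 * derivative p) := by
    rw [derivative_neg, derivative_mul]; simp
  have dp2 : derivative (2 * p ^ 2) = 4 * p * derivative p := by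
    rw [derivative_mul, derivative_pow]
    simp only [derivative_ofNat, zero_mul, zero_add, Nat.cast_ofNat, map_ofNat]
    ring
  have dq9 : derivative (-(9 * q)) = -(9 * derivative q) := by
    rw [derivative_neg, derivative_mul]; simp
  rw [dq, dp] at d3
  rw [dp2, dq9] at d5
  simp only [map_neg, map_mul, map_pow, map_ofNat] at hr3 hr4 hr5 hr6 d3 d5
  have hcop : IsCoprime (del p q) (derivative (del p q)) := ⟨U, V, hUV⟩
  refine core (Y0 := Y0) (Y1 := Y1) (r1 := 9 * q * (derivative r3 - r4) - 2 * p * (derivative r5 - r6))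
    (r2 := 2 * p ^ 2 * (derivative r3 - r4) + 3 * q * (derivative r5 - r6)) (r3 := r3) (r4 := r4)
    hp hq h6 hcop ?_ ?_ ?_ ?_ ?_ ?_
  · rw [del, n00, n01]
    simp only [map_neg, map_mul, map_pow, map_ofNat, map_add, map_sub]
    linear_combination 9 * ev q * (d3 - hr4) - 2 * ev p * (d5 - hr6)
  · rw [del, n10, n11]
    simp only [map_neg, map_mul, map_pow, map_ofNat, map_add, map_sub]
    linear_combination 2 * ev p ^ 2 * (d3 - hr4) + 3 * ev q * (d5 - hr6)
  · rw [← hr3]
    simp only [map_mul, map_ofNat]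
    ring
  · rw [← hr4]
    ring
  · intro n hn
    rw [hY0, ser_cf, if_neg (by omega)]
  · rw [hY0, ser_cf, if_pos one_pos, lamF_apply]
    simp only [sub_self, Int.toNat_zero, pow_zero, map_one, mul_one]
    rw [hP, per_apply, one_mul, one_mul]
    exact hne

end Pool.Agent.P8H32.CT
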