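import Pool.Agent.P8H32.CT.Ser

/-!
Rational solutions of the system have no poles.
-/

set_option autoImplicit false

namespace Pool.Agent.P8H32.CT

open Polynomial

/-- the discriminant of `s ^ 3 + p s + q` up to sign -/
noncomputable def del (p q : ℂ[X]) : ℂ[X] := 4 * p ^ 3 + 27 * q ^ 2

noncomputable def n00 (p q : ℂ[X]) : ℂ[X] := 18 * q * derivative q + 4 * p ^ 2 * derivative p
noncomputable def n01 (p q : ℂ[X]) : ℂ[X] := 9 * q * derivative p - 6 * p * derivative q
noncomputable def n10 (p q : ℂ[X]) : ℂ[X] := 4 * p ^ 2 * derivative q - 6 * p * q * derivative p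
noncomputable def n11 (p q : ℂ[X]) : ℂ[X] := 9 * q * derivative q + 2 * p ^ 2 * derivative p

lemma der_del (p q : ℂ[X]) : derivative (del p q) =
    12 * p ^ 2 * derivative p + 54 * q * derivative q := by
  unfold del
  simp only [derivative_add, derivative_mul, derivative_pow, derivative_ofNat]
  simp only [map_ofNat, Nat.cast_ofNat]
  ring

/-- **No poles.**  If `n0 / d`, `n1 / d` is a rational solution of the inhomogeneous system with
polynomial right-hand sides, then every zero of `d` is a zero of `n0` and of `n1`. -/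
lemma no_pole {p q : ℂ[X]} (hcop : IsCoprime (del p q) (derivative (del p q)))
    {n0 n1 d r0 r1 : ℂ[X]}
    (h0 : del p q * (derivative n0 * d - n0 * derivative d) + (n00 p q * n0 + n01 p q * n1) * d
      = r0 * d ^ 2)
    (h1 : del p q * (derivative n1 * d - n1 * derivative d) + (n10 p q * n0 + n11 p q * n1) * d
      = r1 * d ^ 2) {b : ℂ} (hd : d ≠ 0) (hb : d.IsRoot b) : n0.IsRoot b ∧ n1.IsRoot b := by
  obtain ⟨m, e, hm, he, hde⟩ : ∃ (m : ℕ) (e : ℂ[X]), m ≠ 0 ∧ ¬ e.IsRoot b ∧
      d = (X - C b) ^ m * e := by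
    obtain ⟨e, he1, he2⟩ := Polynomial.exists_eq_pow_rootMultiplicity_mul_and_not_dvd d hd b
    refine ⟨d.rootMultiplicity b, e, ?_, fun h => he2 (dvd_iff_isRoot.2 h), he1⟩
    have := (rootMultiplicity_pos hd).2 hb
    omega
  obtain ⟨k, rfl⟩ : ∃ k, m = k + 1 := ⟨m - 1, by omega⟩
  set u : ℂ[X] := X - C b with hu
  have hu0 : u ≠ 0 := X_sub_C_ne_zero b
  have hub : eval b u = 0 := by rw [hu]; simp
  have hder : derivative d = u ^ k * (((k : ℂ[X]) + 1) * e + u * derivative e) := by
    rw [hde, derivative_mul, derivative_pow, hu, derivative_X_sub_C]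
    push_cast
    simp only [map_add, map_natCast, map_one, Nat.add_sub_cancel]
    ring
  -- divide the equations by `u ^ k * u`... first by `u ^ k`
  have key : ∀ n a r : ℂ[X], del p q * (derivative n * d - n * derivative d) + a * d = r * d ^ 2 →
      del p q * (u * derivative n * e - n * (((k : ℂ[X]) + 1) * e + u * derivative e)) + a * u * e
        = r * u ^ (k + 2) * e ^ 2 := by
    intro n a r h
    rw [hder, hde] at h
    have h2 : u ^ k * (del p q * (u * derivative n * e -
        n * (((k : ℂ[X]) + 1) * e + u * derivative e)) + a * u * e)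
        = u ^ k * (r * u ^ (k + 2) * e ^ 2) := by
      calc _ = del p q * (derivative n * (u ^ (k + 1) * e) -
            n * (u ^ k * (((k : ℂ[X]) + 1) * e + u * derivative e))) +
              a * (u ^ (k + 1) * e) := by ring
        _ = r * (u ^ (k + 1) * e) ^ 2 := h
        _ = _ := by ring
    exact mul_left_cancel₀ (pow_ne_zero _ hu0) h2
  have k0 := key _ _ _ h0
  have k1 := key _ _ _ h1
  have hk1 : ((k : ℂ) + 1) ≠ 0 := by exact_mod_cast Nat.succ_ne_zero k
  have he' : eval b e ≠ 0 := he
  by_cases hD : eval b (del p q) = 0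
  · -- a branch point
    obtain ⟨D1, hD1⟩ : ∃ D1, del p q = u * D1 := dvd_iff_isRoot.2 hD
    have hD1b : eval b (derivative (del p q)) = eval b D1 := by
      rw [hD1, derivative_mul, hu, derivative_X_sub_C]
      simp
    have hD1ne : eval b D1 ≠ 0 := by
      rw [← hD1b]
      intro h
      obtain ⟨x, y, hxy⟩ := hcop
      have := congrArg (eval b) hxy
      simp [hD, h] at this
    have key2 : ∀ n a r : ℂ[X],
        del p q * (u * derivative n * e - n * (((k : ℂ[X]) + 1) * e + u * derivative e)) + a * u * e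
          = r * u ^ (k + 2) * e ^ 2 →
        eval b a = ((k : ℂ) + 1) * eval b D1 * eval b n := by
      intro n a r h
      rw [hD1] at h
      have h2 : u * (D1 * (u * derivative n * e -
          n * (((k : ℂ[X]) + 1) * e + u * derivative e)) + a * e) = u * (r * u ^ (k + 1) * e ^ 2) := by
        calc _ = u * D1 * (u * derivative n * e - n * (((k : ℂ[X]) + 1) * e + u * derivative e)) +
              a * u * e := by ring
          _ = r * u ^ (k + 2) * e ^ 2 := h
          _ = _ := by ring
      have h3 := congrArg (eval b) (mul_left_cancel₀ hu0 h2)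
      simp only [eval_add, eval_mul, eval_sub, eval_pow, hub, zero_mul, zero_sub, add_zero,
        mul_zero, eval_natCast, eval_one, ne_eq, Nat.add_eq_zero_iff, one_ne_zero, and_false,
        not_false_eq_true, zero_pow] at h3
      have h4 : eval b e * (eval b a - ((k : ℂ) + 1) * eval b D1 * eval b n) = 0 := by
        linear_combination h3
      rcases mul_eq_zero.1 h4 with h5 | h5
      · exact absurd h5 he'
      · linear_combination h5
    have e0 := key2 _ _ _ k0
    have e1 := key2 _ _ _ k1
    -- linear algebra at `b`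
    set P := eval b p with hP
    set Q := eval b q with hQ
    set P' := eval b (derivative p) with hP'
    set Q' := eval b (derivative q) with hQ'
    set N0 := eval b n0 with hN0
    set N1 := eval b n1 with hN1
    have hdel : 4 * P ^ 3 + 27 * Q ^ 2 = 0 := by
      have := hD
      unfold del at this
      simpa [hP, hQ] using this
    have hdel' : 12 * P ^ 2 * P' + 54 * Q * Q' = eval b D1 := by
      rw [← hD1b, der_del]
      simp [hP, hQ, hP', hQ']
    have e0' : (18 * Q * Q' + 4 * P ^ 2 * P') * N0 + (9 * Q * P' - 6 * P * Q') * N1 =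
        ((k : ℂ) + 1) * eval b D1 * N0 := by
      have := e0
      unfold n00 n01 at this
      simpa [hP, hQ, hP', hQ', hN0, hN1] using this
    have e1' : (4 * P ^ 2 * Q' - 6 * P * Q * P') * N0 + (9 * Q * Q' + 2 * P ^ 2 * P') * N1 =
        ((k : ℂ) + 1) * eval b D1 * N1 := by
      have := e1
      unfold n10 n11 at this
      simpa [hP, hQ, hP', hQ', hN0, hN1] using this
    set δ := eval b D1 with hδ
    -- determinant of (N - (k+1) δ)
    have hdet : ((18 * Q * Q' + 4 * P ^ 2 * P') - ((k : ℂ) + 1) * δ) *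
        ((9 * Q * Q' + 2 * P ^ 2 * P') - ((k : ℂ) + 1) * δ) -
        (9 * Q * P' - 6 * P * Q') * (4 * P ^ 2 * Q' - 6 * P * Q * P') =
        ((k : ℂ) + 1) * ((k : ℂ) + 1 / 2) * δ ^ 2 := by
      have : (18 * Q * Q' + 4 * P ^ 2 * P') * (9 * Q * Q' + 2 * P ^ 2 * P') -
          (9 * Q * P' - 6 * P * Q') * (4 * P ^ 2 * Q' - 6 * P * Q * P') =
          (4 * P ^ 3 + 27 * Q ^ 2) * (6 * Q' ^ 2 + 2 * P * P' ^ 2) := by ring
      rw [hdel, zero_mul] at this
      rw [← hdel'] 
      linear_combination this
    have hne : ((k : ℂ) + 1) * ((k : ℂ) + 1 / 2) * δ ^ 2 ≠ 0 := by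
      refine mul_ne_zero (mul_ne_zero hk1 ?_) (pow_ne_zero _ hD1ne)
      intro h
      have h2 : (((2 * k + 1 : ℕ) : ℂ)) = 0 := by push_cast; linear_combination 2 * h
      exact absurd (Nat.cast_eq_zero.1 h2) (by omega)
    constructor
    · have : ((k : ℂ) + 1) * ((k : ℂ) + 1 / 2) * δ ^ 2 * N0 = 0 := by
        rw [← hdet]
        linear_combination ((9 * Q * Q' + 2 * P ^ 2 * P') - ((k : ℂ) + 1) * δ) * e0' -
          (9 * Q * P' - 6 * P * Q') * e1'
      exact (mul_eq_zero.1 this).resolve_left hne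
    · have : ((k : ℂ) + 1) * ((k : ℂ) + 1 / 2) * δ ^ 2 * N1 = 0 := by
        rw [← hdet]
        linear_combination ((18 * Q * Q' + 4 * P ^ 2 * P') - ((k : ℂ) + 1) * δ) * e1' -
          (4 * P ^ 2 * Q' - 6 * P * Q * P') * e0'
      exact (mul_eq_zero.1 this).resolve_left hne
  · -- an ordinary point
    have key2 : ∀ n a r : ℂ[X],
        del p q * (u * derivative n * e - n * (((k : ℂ[X]) + 1) * e + u * derivative e)) + a * u * e
          = r * u ^ (k + 2) * e ^ 2 → eval b n = 0 := by
      intro n a r h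
      have h3 := congrArg (eval b) h
      simp only [eval_add, eval_mul, eval_sub, eval_pow, hub, zero_mul, zero_sub, add_zero,
        mul_zero, eval_natCast, eval_one, ne_eq, Nat.add_eq_zero_iff, OfNat.ofNat_ne_zero,
        and_false, not_false_eq_true, zero_pow] at h3
      have h4 : eval b (del p q) * (((k : ℂ) + 1) * eval b e) * eval b n = 0 := by
        linear_combination -h3
      exact (mul_eq_zero.1 h4).resolve_left (mul_ne_zero hD (mul_ne_zero hk1 he'))
    exact ⟨key2 _ _ _ k0, key2 _ _ _ k1⟩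

/-- A rational solution is a polynomial solution. -/
lemma poly_solution {p q : ℂ[X]} (hcop : IsCoprime (del p q) (derivative (del p q)))
    {r0 r1 : ℂ[X]} : ∀ (N : ℕ) (n0 n1 d : ℂ[X]), d.natDegree = N → d ≠ 0 →
    del p q * (derivative n0 * d - n0 * derivative d) + (n00 p q * n0 + n01 p q * n1) * d
      = r0 * d ^ 2 →
    del p q * (derivative n1 * d - n1 * derivative d) + (n10 p q * n0 + n11 p q * n1) * d
      = r1 * d ^ 2 → ∃ a0 a1 : ℂ[X], n0 = a0 * d ∧ n1 = a1 * d := by
  intro N
  induction N with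
  | zero =>
    intro n0 n1 d hN hd _ _
    obtain ⟨c, rfl⟩ : ∃ c, d = C c := ⟨_, eq_C_of_natDegree_eq_zero hN⟩
    have hc : c ≠ 0 := fun h => hd (by rw [h, C_0])
    refine ⟨n0 * C c⁻¹, n1 * C c⁻¹, ?_, ?_⟩ <;>
      rw [mul_assoc, ← C_mul, inv_mul_cancel₀ hc, C_1, mul_one]
  | succ N ih =>
    intro n0 n1 d hN hd h0 h1
    obtain ⟨b, hb⟩ : ∃ b, d.IsRoot b := by
      apply IsAlgClosed.exists_root
      rw [degree_eq_natDegree hd, hN]
      exact_mod_cast Nat.succ_ne_zero N
    obtain ⟨hr0, hr1⟩ := no_pole hcop h0 h1 hd hb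
    obtain ⟨m0, rfl⟩ := dvd_iff_isRoot.2 hr0
    obtain ⟨m1, rfl⟩ := dvd_iff_isRoot.2 hr1
    obtain ⟨e, rfl⟩ := dvd_iff_isRoot.2 hb
    have hu0 : (X - C b : ℂ[X]) ≠ 0 := X_sub_C_ne_zero b
    have he : e ≠ 0 := right_ne_zero_of_mul hd
    have hdeg : e.natDegree = N := by
      rw [natDegree_mul hu0 he, natDegree_X_sub_C] at hN
      omega
    have key : ∀ n a0 a1 r : ℂ[X],
        del p q * (derivative ((X - C b) * n) * ((X - C b) * e) -
          (X - C b) * n * derivative ((X - C b) * e)) +
          (a0 * ((X - C b) * m0) + a1 * ((X - C b) * m1)) * ((X - C b) * e) =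
          r * ((X - C b) * e) ^ 2 →
        del p q * (derivative n * e - n * derivative e) + (a0 * m0 + a1 * m1) * e = r * e ^ 2 := by
      intro n a0 a1 r h
      rw [derivative_mul, derivative_mul, derivative_X_sub_C] at h
      apply mul_left_cancel₀ (pow_ne_zero 2 hu0)
      linear_combination h
    obtain ⟨a0, a1, e0, e1⟩ := ih m0 m1 e hdeg he (key _ _ _ _ h0) (key _ _ _ _ h1)
    exact ⟨a0, a1, by rw [e0]; ring, by rw [e1]; ring⟩

end Pool.Agent.P8H32.CT
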