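import Pool.Agent.P8H32.CT.Geo

/-!
The period of the domain does not vanish.
-/

set_option autoImplicit false

namespace Pool.Agent.P8H32.CT

open Polynomial ComplexConjugate MeasureTheory Filter Topology

variable {p q : ℂ[X]} {σ0 σ1 κ : ℂ} {Ω : Set ℂ} {R : ℝ}

/-- the sequence of cut-off parameters -/
noncomputable def eps (n : ℕ) : ℝ := 1 / ((n : ℝ) + 1)

lemma eps_pos (n : ℕ) : 0 < eps n := by unfold eps; positivity

lemma eps_tendsto : Tendsto (fun n => ((eps n : ℝ) : ℂ)) atTop (𝓝 0) := by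
  have h := (Complex.continuous_ofReal.tendsto 0).comp
    (tendsto_one_div_add_atTop_nhds_zero_nat (𝕜 := ℝ))
  rw [Complex.ofReal_zero] at h
  exact h

namespace Dom

variable (D : Dom p q σ0 σ1 κ Ω R)
include D

lemma GG_pos {τ : ℝ} (hτ : ∀ ζ ∈ Ω, 0 < τ * (κ * EE σ0 σ1 (PP p q) ζ).re) {ζ : ℂ} (hζ : ζ ∈ Ω) :
    ∃ r : ℝ, 0 < r ∧ GG p q σ0 σ1 κ τ ζ = r := by
  obtain ⟨r, hr, h⟩ := D.GG_nonneg_aux hτ (subset_closure hζ)
  refine ⟨r, lt_of_le_of_ne hr ?_, h⟩
  rintro rfl
  have h2 := hτ ζ hζ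
  have h3 := congrArg Complex.re h
  unfold GG at h3
  rw [Complex.re_ofReal_mul] at h3
  rw [h3] at h2
  simp at h2

lemma aesm {f : ℂ → ℂ} (hf : ContinuousOn f (closure Ω)) :
    AEStronglyMeasurable f (volume.restrict Ω) := (D.integrableOn hf).aestronglyMeasurable

/-- the cut-off functions tend to `1` -/
lemma tendsto_phi {τ : ℝ} (hτ : ∀ ζ ∈ Ω, 0 < τ * (κ * EE σ0 σ1 (PP p q) ζ).re) {f : ℂ → ℂ}
    (hf : Continuous f) :
    Tendsto (fun n => ∫ ζ in Ω, f ζ * (GG p q σ0 σ1 κ τ ζ / (GG p q σ0 σ1 κ τ ζ + eps n))) atTop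
      (𝓝 (∫ ζ in Ω, f ζ)) := by
  apply tendsto_integral_of_dominated_convergence (fun ζ => ‖f ζ‖)
  · intro n
    have h := D.cut_cont hτ (eps_pos n) hf
      (b := fun _ => 0) (c := fun _ => 0) continuous_const continuous_const
    exact D.aesm (by simpa using h)
  · exact (D.integrableOn hf.continuousOn).norm
  · intro n
    filter_upwards [ae_restrict_mem D.hopen.measurableSet] with ζ hζ
    obtain ⟨r, hr, h⟩ := D.GG_pos hτ hζ
    have he := eps_pos n
    rw [norm_mul, h, ← Complex.ofReal_add, ← Complex.ofReal_div, Complex.norm_real,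
      Real.norm_of_nonneg (by positivity)]
    have h1 : r / (r + eps n) ≤ 1 := by
      rw [div_le_one (by positivity)]
      linarith
    nlinarith [norm_nonneg (f ζ)]
  · filter_upwards [ae_restrict_mem D.hopen.measurableSet] with ζ hζ
    obtain ⟨r, hr, h⟩ := D.GG_pos hτ hζ
    rw [h]
    have hr' : (r : ℂ) + 0 ≠ 0 := by
      rw [add_zero]
      exact_mod_cast hr.ne'
    have h1 := (tendsto_const_nhds (x := f ζ)).mul
      ((tendsto_const_nhds (x := (r : ℂ))).div (tendsto_const_nhds.add eps_tendsto) hr')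
    rw [add_zero, div_self (by simpa using hr'), mul_one] at h1
    exact h1

/-- the singular parts tend to `0` -/
lemma tendsto_sing {τ : ℝ} (hτ : ∀ ζ ∈ Ω, 0 < τ * (κ * EE σ0 σ1 (PP p q) ζ).re) {f : ℂ → ℂ}
    (hf : Continuous f) :
    Tendsto (fun n => ∫ ζ in Ω, f ζ * GG p q σ0 σ1 κ τ ζ *
      (eps n * 1 / (GG p q σ0 σ1 κ τ ζ + eps n) ^ 2)) atTop (𝓝 0) := by
  have key : Tendsto (fun n => ∫ ζ in Ω, f ζ * GG p q σ0 σ1 κ τ ζ *
      (eps n * 1 / (GG p q σ0 σ1 κ τ ζ + eps n) ^ 2)) atTop (𝓝 (∫ ζ in Ω, (0 : ℂ))) := by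
    apply tendsto_integral_of_dominated_convergence (fun ζ => ‖f ζ‖)
    · intro n
      have h := D.cut_cont hτ (eps_pos n) (a := fun _ => 0) (b := fun ζ => f ζ * GG p q σ0 σ1 κ τ ζ)
        (c := fun _ => 1) continuous_const (hf.mul (continuous_GG τ)) continuous_const
      exact D.aesm (by simpa using h)
    · exact (D.integrableOn hf.continuousOn).norm
    · intro n
      filter_upwards [ae_restrict_mem D.hopen.measurableSet] with ζ hζ
      obtain ⟨r, hr, h⟩ := D.GG_pos hτ hζ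
      have he := eps_pos n
      rw [mul_assoc, norm_mul, h, ← Complex.ofReal_add, mul_one, ← Complex.ofReal_pow,
        ← Complex.ofReal_div, ← Complex.ofReal_mul, Complex.norm_real,
        Real.norm_of_nonneg (by positivity)]
      have h1 : r * (eps n / (r + eps n) ^ 2) ≤ 1 := by
        rw [← mul_div_assoc, div_le_one (by positivity)]
        nlinarith [mul_pos hr he]
      nlinarith [norm_nonneg (f ζ)]
    · filter_upwards [ae_restrict_mem D.hopen.measurableSet] with ζ hζ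
      obtain ⟨r, hr, h⟩ := D.GG_pos hτ hζ
      rw [h]
      have hr' : ((r : ℂ) + 0) ^ 2 ≠ 0 := by
        rw [add_zero]
        exact pow_ne_zero 2 (by exact_mod_cast hr.ne')
      have h1 := (tendsto_const_nhds (x := f ζ * (r : ℂ))).mul
        ((eps_tendsto.mul (tendsto_const_nhds (x := (1 : ℂ)))).div
          ((tendsto_const_nhds.add eps_tendsto).pow 2) hr')
      rw [zero_mul, zero_div, mul_zero] at h1
      exact h1
  simpa using key

/-- **Positivity of the period.** -/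
theorem period_ne_zero {U V : ℂ[X]} (hUV : U * del p q + V * derivative (del p q) = 1) :
    ∫ ζ in Ω, EE σ0 σ1 (MvPolynomial.pderiv 0 (bB V) + MvPolynomial.pderiv 1 (bC p q U V)) ζ ≠ 0 := by
  intro h0
  obtain ⟨τ, hτ1, hτ⟩ := D.sign
  have hτ0 : (τ : ℂ) * κ ≠ 0 := by
    refine mul_ne_zero ?_ D.hκ
    rcases hτ1 with rfl | rfl <;> simp
  set g := GG p q σ0 σ1 κ τ with hg
  set W : ℕ → ℂ → ℂ := fun n ζ => eps n * 1 / (g ζ + eps n) ^ 2 with hW
  have hWc : ∀ (n : ℕ) {b : ℂ → ℂ} (hb : Continuous b),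
      ContinuousOn (fun ζ => b ζ * W n ζ) (closure Ω) := by
    intro n b hb
    have h := D.cut_cont hτ (eps_pos n) (a := fun _ => 0) (b := b)
        (c := fun _ => 1) continuous_const hb continuous_const
    simp only [hW, hg]
    simpa using h
  -- the integrals of `W n` tend to `0`
  have h1 : Tendsto (fun n => ∫ ζ in Ω, W n ζ) atTop (𝓝 0) := by
    have ha := D.tendsto_sing hτ (continuous_EE (σ0 := σ0) (σ1 := σ1) (bA p q U V))
    have hb := D.tendsto_phi hτ (continuous_EE (σ0 := σ0) (σ1 := σ1)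
      (MvPolynomial.pderiv 0 (bB V) + MvPolynomial.pderiv 1 (bC p q U V)))
    rw [h0] at hb
    have hc := (ha.sub hb).const_mul ((τ : ℂ) * κ)⁻¹
    rw [sub_zero, mul_zero] at hc
    refine hc.congr ?_
    intro n
    have ht := D.total hUV hτ (eps_pos n)
    have hi1 : IntegrableOn (fun ζ => EE σ0 σ1 (MvPolynomial.pderiv 0 (bB V) +
        MvPolynomial.pderiv 1 (bC p q U V)) ζ *
        (GG p q σ0 σ1 κ τ ζ / (GG p q σ0 σ1 κ τ ζ + eps n))) Ω := by
      have h := D.cut_cont hτ (eps_pos n) (continuous_EE (σ0 := σ0) (σ1 := σ1)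
        (MvPolynomial.pderiv 0 (bB V) + MvPolynomial.pderiv 1 (bC p q U V)))
        (b := fun _ => 0) (c := fun _ => 0) continuous_const continuous_const
      exact D.integrableOn (by simpa using h)
    have hi2 : IntegrableOn (fun ζ => (τ : ℂ) * κ * W n ζ) Ω :=
      D.integrableOn (hWc n continuous_const)
    have hi3 : IntegrableOn (fun ζ => EE σ0 σ1 (bA p q U V) ζ * g ζ * W n ζ) Ω :=
      D.integrableOn (hWc n ((continuous_EE _).mul (continuous_GG τ)))
    have hs : ∀ ζ, (EE σ0 σ1 (MvPolynomial.pderiv 0 (bB V) + MvPolynomial.pderiv 1 (bC p q U V)) ζ *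
      (GG p q σ0 σ1 κ τ ζ / (GG p q σ0 σ1 κ τ ζ + eps n)) +
      (τ * κ - EE σ0 σ1 (bA p q U V) ζ * GG p q σ0 σ1 κ τ ζ) *
        (eps n * 1 / (GG p q σ0 σ1 κ τ ζ + eps n) ^ 2)) =
        EE σ0 σ1 (MvPolynomial.pderiv 0 (bB V) +
        MvPolynomial.pderiv 1 (bC p q U V)) ζ *
        (GG p q σ0 σ1 κ τ ζ / (GG p q σ0 σ1 κ τ ζ + eps n)) +
        (((τ : ℂ) * κ * W n ζ) - EE σ0 σ1 (bA p q U V) ζ * g ζ * W n ζ) := by
      intro ζ
      rw [hW, ← sub_mul]
    simp only [hs] at ht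
    have hi4 : IntegrableOn (fun ζ => (τ : ℂ) * κ * W n ζ -
        EE σ0 σ1 (bA p q U V) ζ * g ζ * W n ζ) Ω := hi2.sub hi3
    rw [integral_add hi1 hi4, integral_sub hi2 hi3, integral_const_mul] at ht
    rw [inv_mul_eq_iff_eq_mul₀ hτ0]
    rw [hW, hg] at *
    linear_combination -ht
  -- `W n` is nonnegative
  have hWr : ∀ n, ∀ ζ ∈ Ω, ‖W n ζ‖ = (W n ζ).re := by
    intro n ζ hζ
    obtain ⟨r, hr, h⟩ := D.GG_pos hτ hζ
    have he := eps_pos n
    rw [hW, hg]
    simp only
    rw [h, ← Complex.ofReal_add, mul_one, ← Complex.ofReal_pow, ← Complex.ofReal_div,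
      Complex.norm_real, Complex.ofReal_re, Real.norm_of_nonneg (by positivity)]
  have h2 : Tendsto (fun n => ∫ ζ in Ω, ‖W n ζ‖) atTop (𝓝 0) := by
    have h3 := (Complex.continuous_re.tendsto 0).comp h1
    rw [Complex.zero_re] at h3
    refine h3.congr ?_
    intro n
    simp only [Function.comp_apply]
    have hi : IntegrableOn (W n) Ω := D.integrableOn (by
      have := hWc n (b := fun _ => 1) continuous_const
      simpa using this)
    have h4 := integral_re (𝕜 := ℂ) hi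
    simp only [RCLike.re_to_complex] at h4
    rw [← h4]
    exact setIntegral_congr_fun D.hopen.measurableSet fun ζ hζ => (hWr n ζ hζ).symm
  -- bound for the cut-off area
  obtain ⟨K, hK⟩ := D.isCompact.exists_bound_of_continuousOn
    (f := fun ζ => EE σ0 σ1 (MvPolynomial.X 0) ζ * (τ * (κ * Ex σ0 σ1 (PP p q) ζ)))
    ((continuous_EE _).mul (continuous_const.mul (continuous_const.mul
      (continuous_Ex _)))).continuousOn
  have h5 : Tendsto (fun n => ∫ ζ in Ω, (1 : ℂ) * (GG p q σ0 σ1 κ τ ζ /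
      (GG p q σ0 σ1 κ τ ζ + eps n))) atTop (𝓝 0) := by
    apply squeeze_zero_norm (a := fun n => K * ∫ ζ in Ω, ‖W n ζ‖)
    · intro n
      have hx := D.cut_x hτ (eps_pos n) (MvPolynomial.X 0)
      have hex : ∀ ζ, Ex σ0 σ1 (MvPolynomial.X 0) ζ = 1 := by
        intro ζ
        unfold Ex EE
        rw [MvPolynomial.pderiv_X_self, MvPolynomial.pderiv_X_of_ne (by decide)]
        simp
      simp only [hex] at hx
      have hi1 : IntegrableOn (fun ζ => (1 : ℂ) *
        (GG p q σ0 σ1 κ τ ζ / (GG p q σ0 σ1 κ τ ζ + eps n))) Ω := by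
        have h := D.cut_cont hτ (eps_pos n) (a := fun _ => 1)
          (b := fun _ => 0) (c := fun _ => 0) continuous_const continuous_const continuous_const
        exact D.integrableOn (by simpa using h)
      have hsec : ∀ ζ, EE σ0 σ1 (MvPolynomial.X 0) ζ *
          (eps n * (τ * (κ * Ex σ0 σ1 (PP p q) ζ)) / (GG p q σ0 σ1 κ τ ζ + eps n) ^ 2) =
          (EE σ0 σ1 (MvPolynomial.X 0) ζ * (τ * (κ * Ex σ0 σ1 (PP p q) ζ))) * W n ζ := by
        intro ζ
        rw [hW]
        ring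
      simp only [hsec] at hx
      have hi2 : IntegrableOn (fun ζ => (EE σ0 σ1 (MvPolynomial.X 0) ζ *
          (τ * (κ * Ex σ0 σ1 (PP p q) ζ))) * W n ζ) Ω :=
        D.integrableOn (hWc n ((continuous_EE _).mul (continuous_const.mul (continuous_const.mul
          (continuous_Ex _)))))
      rw [integral_add hi1 hi2] at hx
      rw [eq_neg_of_add_eq_zero_left hx, norm_neg]
      have hi3 : IntegrableOn (fun ζ => ‖W n ζ‖) Ω := (D.integrableOn (by
        have := hWc n (b := fun _ => 1) continuous_const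
        simpa using this)).norm
      calc ‖∫ ζ in Ω, (EE σ0 σ1 (MvPolynomial.X 0) ζ *
          (τ * (κ * Ex σ0 σ1 (PP p q) ζ))) * W n ζ‖
          ≤ ∫ ζ in Ω, ‖(EE σ0 σ1 (MvPolynomial.X 0) ζ *
          (τ * (κ * Ex σ0 σ1 (PP p q) ζ))) * W n ζ‖ := norm_integral_le_integral_norm _
        _ ≤ ∫ ζ in Ω, K * ‖W n ζ‖ := by
            apply setIntegral_mono_on hi2.norm (hi3.const_mul K) D.hopen.measurableSet
            intro ζ hζ
            rw [norm_mul]
            exact mul_le_mul_of_nonneg_right (hK ζ (subset_closure hζ)) (norm_nonneg _)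
        _ = K * ∫ ζ in Ω, ‖W n ζ‖ := integral_const_mul _ _
    · simpa using h2.const_mul K
  have h6 := D.tendsto_phi hτ (f := fun _ => 1) continuous_const
  have h7 := tendsto_nhds_unique h5 h6
  rw [setIntegral_const] at h7
  have hvol : volume Ω ≠ 0 := (D.hopen.measure_pos volume D.hne).ne'
  have hvol2 : volume Ω ≠ ⊤ := ((measure_mono subset_closure).trans_lt D.isCompact.measure_lt_top).ne
  have : volume.real Ω ≠ 0 := by
    rw [Measure.real, ENNReal.toReal_ne_zero]
    exact ⟨hvol, hvol2⟩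
  apply this
  have h8 := h7.symm
  simpa using h8

/-- the functional `F ↦ π⁻¹ ∫_Ω F(ζ, s(ζ))` -/
noncomputable def areaF (D : Dom p q σ0 σ1 κ Ω R) : RR →ₗ[ℂ] ℂ where
  toFun F := (1 / (Real.pi : ℂ)) * ∫ ζ in Ω, EE σ0 σ1 F ζ
  map_add' F G := by
    simp only [EE_add]
    rw [integral_add (D.integrableOn_EE F) (D.integrableOn_EE G), mul_add]
  map_smul' c F := by
    have h : ∀ ζ, EE σ0 σ1 (c • F) ζ = c * EE σ0 σ1 F ζ := by
      intro ζ
      simp [EE, MvPolynomial.smul_eval]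
    simp only [h]
    rw [integral_const_mul]
    simp only [RingHom.id_apply, smul_eq_mul]
    ring

omit D in
/-- **Transcendence of the series of moments.** -/
theorem transcendental (D : Dom p q σ0 σ1 κ Ω R) :
    ¬ IsAlgebraic kZ (ser (D.areaF ∘ₗ toR.toLinearMap)) := by
  obtain ⟨U, V, hUV⟩ := D.hcop
  have hpi : (1 / (Real.pi : ℂ)) ≠ 0 := by
    apply one_div_ne_zero
    exact_mod_cast Real.pi_ne_zero
  refine per_main D.hp D.hq D.h6 hUV D.areaF ?_ ?_ ?_
  · intro F
    change (1 / (Real.pi : ℂ)) * ∫ ζ in Ω, EE σ0 σ1 _ ζ = 0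
    rw [D.stokes0, mul_zero]
  · intro F
    change (1 / (Real.pi : ℂ)) * ∫ ζ in Ω, EE σ0 σ1 _ ζ = 0
    rw [D.stokes1, mul_zero]
  · exact mul_ne_zero hpi (D.period_ne_zero hUV)

end Dom

end Pool.Agent.P8H32.CT
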