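import Mathlib

/-!
Laurent series in `t = 1 / Z` with the derivation `d / dZ`.
-/

set_option autoImplicit false

namespace Pool.Agent.P8H32.CT

open Polynomial HahnSeries

/-- Laurent series in `t = 1 / Z`. -/
def LS : Type := HahnSeries ℤ ℂ

noncomputable instance : Field LS := inferInstanceAs (Field (HahnSeries ℤ ℂ))

/-- coefficient of `t ^ n` -/
def cf (x : LS) (n : ℤ) : ℂ := HahnSeries.coeff (Γ := ℤ) (R := ℂ) x n

/-- constants -/
noncomputable def CC : ℂ →+* LS := (HahnSeries.C : ℂ →+* HahnSeries ℤ ℂ)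

noncomputable instance : Algebra ℂ LS := CC.toAlgebra

/-- a monomial -/
noncomputable def mono (n : ℤ) (a : ℂ) : LS := HahnSeries.single n a

lemma ext' {x y : LS} (h : ∀ n, cf x n = cf y n) : x = y :=
  HahnSeries.ext (funext h)

lemma cf_add (x y : LS) (n : ℤ) : cf (x + y) n = cf x n + cf y n := rfl

lemma cf_neg (x : LS) (n : ℤ) : cf (-x) n = -cf x n := rfl

lemma cf_sub (x y : LS) (n : ℤ) : cf (x - y) n = cf x n - cf y n := by
  rw [sub_eq_add_neg, cf_add, cf_neg, sub_eq_add_neg]

lemma cf_zero (n : ℤ) : cf 0 n = 0 := rfl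

lemma cf_one (n : ℤ) : cf 1 n = if n = 0 then 1 else 0 := by
  have h := HahnSeries.coeff_one (Γ := ℤ) (R := ℂ) (a := n)
  change HahnSeries.coeff (Γ := ℤ) (R := ℂ) 1 n = _
  rw [h]
  by_cases h2 : n = 0
  · rw [if_pos h2, if_pos h2]
  · rw [if_neg h2, if_neg h2]

lemma cf_mono (m : ℤ) (a : ℂ) (n : ℤ) : cf (mono m a) n = if n = m then a else 0 := by
  have h := HahnSeries.coeff_single (Γ := ℤ) (R := ℂ) (a := m) (b := n) (r := a)
  change HahnSeries.coeff (Γ := ℤ) (R := ℂ) (HahnSeries.single m a) n = _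
  rw [h]
  by_cases h2 : n = m
  · rw [if_pos h2, if_pos h2]
  · rw [if_neg h2, if_neg h2]

lemma mono_mul (m n : ℤ) (a b : ℂ) : mono m a * mono n b = mono (m + n) (a * b) :=
  HahnSeries.single_mul_single

lemma mono_mul_cf (m : ℤ) (a : ℂ) (x : LS) (n : ℤ) : cf (mono m a * x) n = a * cf x (n - m) := by
  have h := HahnSeries.coeff_single_mul_add (Γ := ℤ) (R := ℂ) (r := a) (x := x) (a := n - m) (b := m)
  rw [sub_add_cancel] at h
  exact h

lemma CC_eq (a : ℂ) : CC a = mono 0 a := rfl

lemma CC_mul_cf (a : ℂ) (x : LS) (n : ℤ) : cf (CC a * x) n = a * cf x n := by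
  rw [CC_eq, mono_mul_cf, sub_zero]

lemma mono_zero_one : mono 0 1 = 1 := rfl

/-- The coefficientwise map `x_n ↦ n x_n`. -/
noncomputable def thetaFun (x : HahnSeries ℤ ℂ) : HahnSeries ℤ ℂ where
  coeff n := (n : ℂ) * x.coeff n
  isPWO_support' := x.isPWO_support.mono (by
    intro k hk h0
    have h0' : x.coeff k = 0 := h0
    exact hk (by change (k : ℂ) * x.coeff k = 0; rw [h0', mul_zero]))

lemma thetaFun_coeff (x : HahnSeries ℤ ℂ) (n : ℤ) : (thetaFun x).coeff n = (n : ℂ) * x.coeff n := rfl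

lemma thetaFun_mul (x y : HahnSeries ℤ ℂ) : thetaFun (x * y) = x * thetaFun y + y * thetaFun x := by
  ext k
  rw [thetaFun_coeff]
  have h1 : (x * thetaFun y).coeff k = ∑ ij ∈ Finset.antidiagonal x.isPWO_support
      y.isPWO_support k, x.coeff ij.1 * ((ij.2 : ℂ) * y.coeff ij.2) := by
    rw [HahnSeries.coeff_mul_right' y.isPWO_support]
    · rfl
    · intro k hk h0
      have h0' : y.coeff k = 0 := h0
      exact hk (by rw [thetaFun_coeff, h0', mul_zero])
  have h2 : (y * thetaFun x).coeff k = ∑ ij ∈ Finset.antidiagonal x.isPWO_support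
      y.isPWO_support k, y.coeff ij.2 * ((ij.1 : ℂ) * x.coeff ij.1) := by
    rw [mul_comm, HahnSeries.coeff_mul_left' x.isPWO_support]
    · refine Finset.sum_congr rfl fun ij _ => ?_
      rw [thetaFun_coeff, mul_comm]
    · intro k hk h0
      have h0' : x.coeff k = 0 := h0
      exact hk (by rw [thetaFun_coeff, h0', mul_zero])
  rw [HahnSeries.coeff_add, h1, h2, HahnSeries.coeff_mul, Finset.mul_sum, ← Finset.sum_add_distrib]
  refine Finset.sum_congr rfl fun ij hij => ?_
  have h3 : ij.1 + ij.2 = k := (Finset.mem_antidiagonal.1 hij).2.2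
  rw [← h3]
  push_cast
  ring

/-- the map `x ↦ x'` -/
noncomputable def theta (x : LS) : LS := thetaFun x

lemma theta_mul (x y : LS) : theta (x * y) = x * theta y + y * theta x := thetaFun_mul x y

/-- the map `x ↦ x'` -/
noncomputable def dz (x : LS) : LS := -(mono 1 1 * theta x)

lemma dz_cf (x : LS) (n : ℤ) : cf (dz x) n = -((n - 1 : ℤ) : ℂ) * cf x (n - 1) := by
  rw [dz, cf_neg, mono_mul_cf, one_mul]
  change -(((n - 1 : ℤ) : ℂ) * cf x (n - 1)) = _
  ring

/-- The derivation `d / dZ`. -/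
noncomputable def DZ : Derivation ℤ LS LS :=
  Derivation.mk' (AddMonoidHom.toIntLinearMap
    { toFun := dz
      map_zero' := by apply ext'; intro n; rw [dz_cf, cf_zero, cf_zero, mul_zero]
      map_add' := fun x y => by
        apply ext'; intro n; rw [dz_cf, cf_add, cf_add, dz_cf, dz_cf, mul_add] }) (by
    intro x y
    change -(mono 1 1 * theta (x * y)) = x * -(mono 1 1 * theta y) + y * -(mono 1 1 * theta x)
    rw [theta_mul]
    ring)

lemma DZ_cf (x : LS) (n : ℤ) : cf (DZ x) n = -((n - 1 : ℤ) : ℂ) * cf x (n - 1) := dz_cf x n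

/-- the variable `Z` -/
noncomputable def ZZ : LS := mono (-1) 1

lemma DZ_ZZ : DZ ZZ = 1 := by
  apply ext'
  intro n
  rw [DZ_cf, ZZ, cf_mono, cf_one]
  by_cases h : n = 0
  · subst h
    norm_num
  · rw [if_neg (by omega), if_neg h, mul_zero]

lemma DZ_CC (a : ℂ) : DZ (CC a) = 0 := by
  apply ext'
  intro n
  rw [DZ_cf, CC_eq, cf_mono, cf_zero]
  by_cases h : n = 1
  · subst h
    norm_num
  · rw [if_neg (by omega), mul_zero]

/-- Polynomials in `Z`. -/
noncomputable def ev : ℂ[X] →+* LS := eval₂RingHom CC ZZ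

lemma ev_C (a : ℂ) : ev (C a) = CC a := eval₂_C _ _
lemma ev_X : ev X = ZZ := eval₂_X _ _

lemma ZZ_pow (n : ℕ) : ZZ ^ n = mono (-(n : ℤ)) 1 := by
  induction n with
  | zero => simp [mono_zero_one]
  | succ n ih =>
    rw [pow_succ, ih, ZZ, mono_mul, mul_one]
    congr 1
    push_cast
    ring

lemma ev_monomial (n : ℕ) (a : ℂ) : ev (monomial n a) = mono (-(n : ℤ)) a := by
  rw [ev, coe_eval₂RingHom, eval₂_monomial, ZZ_pow, CC_eq, mono_mul, zero_add, mul_one]

lemma DZ_ev (f : ℂ[X]) : DZ (ev f) = ev (derivative f) := by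
  induction f using Polynomial.induction_on' with
  | add p q hp hq => rw [map_add, map_add, hp, hq, map_add, map_add]
  | monomial m a =>
    rw [derivative_monomial, ev_monomial, ev_monomial]
    apply ext'
    intro n
    rw [DZ_cf, cf_mono, cf_mono]
    rcases Nat.eq_zero_or_pos m with h | h
    · subst h
      by_cases h2 : n = 1
      · subst h2; norm_num
      · rw [if_neg (by simpa [sub_eq_zero] using h2), mul_zero]
        simp
    · by_cases h2 : n - 1 = -(m : ℤ)
      · rw [if_pos h2, if_pos (by omega), h2]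
        push_cast
        ring
      · rw [if_neg h2, if_neg (by omega), mul_zero]

lemma ev_cf_neg (f : ℂ[X]) (n : ℕ) : cf (ev f) (-(n : ℤ)) = f.coeff n := by
  induction f using Polynomial.induction_on' with
  | add p q hp hq => rw [map_add, cf_add, hp, hq, Polynomial.coeff_add]
  | monomial m a =>
    rw [ev_monomial, Polynomial.coeff_monomial, cf_mono]
    by_cases h : m = n
    · subst h; simp
    · rw [if_neg (by omega), if_neg h]

lemma ev_cf_pos (f : ℂ[X]) (n : ℤ) (hn : 0 < n) : cf (ev f) n = 0 := by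
  induction f using Polynomial.induction_on' with
  | add p q hp hq => rw [map_add, cf_add, hp, hq, add_zero]
  | monomial m a =>
    rw [ev_monomial, cf_mono, if_neg (by omega)]

lemma ev_injective : Function.Injective ev := by
  rw [injective_iff_map_eq_zero]
  intro f hf
  ext n
  rw [← ev_cf_neg, hf, cf_zero, Polynomial.coeff_zero]

/-- coefficients of a product with a polynomial -/
lemma ev_mul_cf (f : ℂ[X]) (x : LS) (n : ℤ) :
    cf (ev f * x) n = f.sum fun i a => a * cf x (n + i) := by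
  induction f using Polynomial.induction_on' with
  | add p q hp hq =>
    rw [map_add, add_mul, cf_add, hp, hq, Polynomial.sum_add_index]
    · intro i; simp
    · intro i a b; ring
  | monomial m a =>
    rw [Polynomial.sum_monomial_index _ _ (by simp), ev_monomial, mono_mul_cf, sub_neg_eq_add]

/-- the leading coefficient of a product with a polynomial -/
lemma ev_mul_cf_top (f : ℂ[X]) (x : LS) (d : ℕ) (v : ℤ) (hf : f.natDegree ≤ d)
    (hx : ∀ n < v, cf x n = 0) : cf (ev f * x) (v - d) = f.coeff d * cf x v := by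
  rw [ev_mul_cf, Polynomial.sum_over_range' f (by simp) (d + 1) (by omega)]
  rw [Finset.sum_range_succ, Finset.sum_eq_zero]
  · rw [zero_add, sub_add_cancel]
  · intro i hi
    rw [Finset.mem_range] at hi
    rw [hx _ (by omega), mul_zero]

lemma ev_mul_cf_zero (f : ℂ[X]) (x : LS) (d : ℕ) (v n : ℤ) (hf : f.natDegree ≤ d)
    (hx : ∀ n < v, cf x n = 0) (hn : n < v - d) : cf (ev f * x) n = 0 := by
  rw [ev_mul_cf, Polynomial.sum_over_range' f (by simp) (d + 1) (by omega)]
  apply Finset.sum_eq_zero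
  intro i hi
  rw [Finset.mem_range] at hi
  rw [hx _ (by omega), mul_zero]

end Pool.Agent.P8H32.CT
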